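import Pool.Agent.R936.Hel2.Defs
import Pool.Agent.Y133.Half.PerDefs

/-!
# De Rham-Betti classes on products of varieties of CM type: definitions

In the intended use `k` is the field of algebraic numbers, `T` is the cohomology of the complex manifolds with
its Hodge decomposition, `F` is the field of algebraic numbers in `ℂ`, and `D` is given by the algebraic de
Rham cohomology (`Pool.Agent.Y133.Per.DeRham`).
-/

open CategoryTheory AlgebraicGeometry

universe u w

namespace Pool.Agent.R936.Per

open Pool.Agent.H914 Pool.Agent.H914.VarClass Pool.Agent.H914.VarClass.Obj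
  Pool.Agent.H914.WeilCohomology Pool.Agent.Y121.AHS Pool.Agent.R940 Pool.Agent.Y133.Per

variable {k : Type u} [Field k] {𝒱 : VarClass k} {ops : CycleOps 𝒱} {T : HodgeTheory ops}
  {F : Subfield ℂ} {I : Type w}

/-- The subfield `F` is algebraically closed. -/
def AlgClosedIn (F : Subfield ℂ) : Prop := ∀ z : ℂ, IsAlgebraic F z → z ∈ F

/-- The element `x` of `ℂ ⊗ H(X)` (`HL T.W ℂ X` and `Base T.W.K (T.W.H X)` both are this tensor product). -/
def asBase {X : 𝒱.Obj} (x : HL T.W ℂ X) : Base T.W.K (T.W.H X) := x

/-- The class `x` in the cohomology with complex coefficients belongs to the de Rham cohomology. -/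
def InDR (D : DeRham T.W F) {X : 𝒱.Obj} (x : HL T.W ℂ X) : Prop := asBase x ∈ D.dR X

/-- The rational endomorphism respects the de Rham cohomology. -/
def RespDR (D : DeRham T.W F) {X : 𝒱.Obj} (f : EndH T X) : Prop :=
  ∀ x : HL T.W ℂ X, InDR D x → InDR D (endC f x)

/-- `X` is of CM type: the cohomology `H(X)`, the sum of the `H^i(X)`, has a rational endomorphism with a
squarefree characteristic polynomial which preserves the spaces `H^(p,q)(X)` (and therefore the degrees)
and the de Rham cohomology. (For abelian varieties of CM type there is an endomorphism of the variety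
whose action on `H(X)` has a squarefree characteristic polynomial.) -/
def IsCMdR (D : DeRham T.W F) (X : 𝒱.Obj) : Prop :=
  ∃ f : EndH T X, HasSquarefreeCharpoly f ∧ RespTypes f ∧ RespDR D f

/-- There are `R` rational endomorphisms `E j` of the sum of the cohomology groups of the members of
the family `X`, which map the cohomology of each member `X i` to itself, such that the operator which
acts on the spaces `H^(p,q)(X i)` as the multiplication by `p - q` is a linear combination
`∑ z j * E j` with complex coefficients. (`smL` is the multiplication by a complex number.)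

This operator generates the Lie algebra of the image of the circle group, and for Hodge structures of
CM type the least such number `R` is the dimension of their Hodge group. -/
def HgDimLe (T : HodgeTheory ops) (X : I → 𝒱.Obj) (R : ℕ) : Prop :=
  ∃ (E : Fin R → ∀ i, EndH T (X i)) (z : Fin R → ℂ),
    ∀ (i : I) (p q : ℤ) (x : HL T.W ℂ (X i)), IsType T.pq p q x →
      ∑ j, smL (z j) (endC (E j i) x) = smL ((p - q : ℤ) : ℂ) x

/-- All Hodge classes on `Y` are de Rham-Betti classes. -/
def HodgeAreDRB (D : DeRham T.W F) (Y : 𝒱.Obj) : Prop :=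
  ∀ (j : ℕ) (c : T.W.H Y), IsHodge T Y j c → IsDRB D Y j c

/-- All de Rham-Betti classes on `Y` are Hodge classes. -/
def DRBAreHodge (D : DeRham T.W F) (Y : 𝒱.Obj) : Prop :=
  ∀ (j : ℕ) (c : T.W.H Y), IsDRB D Y j c → IsHodge T Y j c

/-- The class `c` is the class of an algebraic cycle of codimension `j` with rational coefficients. -/
def IsAlg (T : HodgeTheory ops) (Y : 𝒱.Obj) (j : ℕ) (c : T.W.H Y) : Prop :=
  ∃ z : Y.Cycles, Y.IsCyc j z ∧ T.W.cl Y z = c

/-- The Grothendieck period conjecture `GPC^j` for `Y` and all `j`: the de Rham-Betti classes are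
classes of algebraic cycles. -/
def GPCAll (D : DeRham T.W F) (Y : 𝒱.Obj) : Prop :=
  ∀ (j : ℕ) (c : T.W.H Y), IsDRB D Y j c → IsAlg T Y j c

/-- The Hodge conjecture for `Y`: the Hodge classes are classes of algebraic cycles. -/
def HodgeAll (T : HodgeTheory ops) (Y : 𝒱.Obj) : Prop :=
  ∀ (j : ℕ) (c : T.W.H Y), IsHodge T Y j c → IsAlg T Y j c

end Pool.Agent.R936.Per
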