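import Pool.Agent.R936.Per.Main
import Pool.Agent.R936.Per.Defs
import Pool.Agent.Y133.Half.Per

/-!
# The period conjecture for products of varieties of CM type
-/

set_option linter.unusedVariables false
set_option linter.unusedSectionVars false

open CategoryTheory AlgebraicGeometry TensorProduct

universe u w

namespace Pool.Agent.R936.Per

open Pool.Agent.H914 Pool.Agent.W534 VarClass Obj WeilCohomology Module
open Pool.Agent.Y121
open Pool.Agent.Y121.AHS (toH instAlgH HL)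
open Pool.Agent.Y163 (HBasis)
open Pool.Agent
open Pool.Agent.R940 (CMB csH csH_smul csH_map csH_em csH_gr csH_inj cs cs_ind cs_tmul cs_comp
  cs_smul cs_mem cs_baseChange cs_injective HSub em_HSub type_bound deg_eq repr_zero
  mem_of_baseChange exists_eigbasis eig_homog pq_top NonnegTypes IsCM HodgeConj EndH endC
  exists_cycle)
open Pool.Agent.R936
open Pool.Agent.R936.Hel
open Pool.Agent.R936.Hel2 (BB CC opL HodgeGroupDimLe IsFactorBound Few hodge_red prodOf_eq)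
open Pool.Agent.Y133.Per (DeRham Base baseTr baseMap tm twist twoPiI twoPiI_ne IsDRB GPC)

variable {k : Type u} [Field k] {𝒱 : VarClass k} {ops : CycleOps 𝒱}

section AH

variable {T : AH.HodgeTheory ops} {X : 𝒱.Obj} {L : Type} [Field L] [Algebra T.W.K L]

/-- The existence of the eigenbasis. -/
theorem exists_cmb' {f : T.W.H X →ₗ[T.W.K] T.W.H X} (hs : Squarefree (LinearMap.charpoly f))
    (hgr : ∀ i, ∀ x ∈ T.W.gr X i, f x ∈ T.W.gr X i)
    (hpq : ∀ (p q : ℤ), ∀ x : (baseW T.W ℂ).H X, x ∈ T.pq X p q →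
      (show (baseW T.W ℂ).H X from f.baseChange ℂ (show ℂ ⊗[T.W.K] T.W.H X from x)) ∈ T.pq X p q)
    (hL : ((LinearMap.charpoly f).map (algebraMap T.W.K L)).Splits) :
    ∃ (M : CMB T X L (Fin (finrank T.W.K (T.W.H X)))) (μ : Fin (finrank T.W.K (T.W.H X)) → L),
      Function.Injective μ ∧ ∀ (σ : L →ₐ[T.W.K] ℂ) l,
        f.baseChange ℂ (show ℂ ⊗[T.W.K] T.W.H X from (M.C σ).b l) =
          σ (μ l) • (show ℂ ⊗[T.W.K] T.W.H X from (M.C σ).b l) := by
  classical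
  obtain ⟨v, μ, hμ, hv⟩ := exists_eigbasis (K := T.W.K) (L := L) (f := f) hs hL
  -- degrees
  have hgrL : ∀ i, ∀ x ∈ (T.W.gr X i).baseChange L, f.baseChange L x ∈ (T.W.gr X i).baseChange L := by
    intro i x hx
    rw [Submodule.baseChange_eq_span] at hx
    induction hx using Submodule.span_induction with
    | mem x hx =>
      obtain ⟨a, ha, rfl⟩ := hx
      rw [TensorProduct.mk_apply, LinearMap.baseChange_tmul]
      exact Submodule.tmul_mem_baseChange_of_mem _ (hgr i a ha)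
    | zero => rw [map_zero]; exact Submodule.zero_mem _
    | add x y _ _ hx hy => rw [map_add]; exact Submodule.add_mem _ hx hy
    | smul c x _ hx => rw [map_smul]; exact Submodule.smul_mem _ _ hx
  have hInt : DirectSum.IsInternal (fun i => (T.W.gr X i).baseChange L) :=
    (baseW T.W L).isInternal X
  have hdeg := fun l => eig_homog (g := f.baseChange L) hInt.submodule_iSupIndep
    hInt.submodule_iSup_eq_top hgrL v hμ hv l
  choose deg hdeg using hdeg
  let B : HBasis (baseW T.W L) X (Fin (finrank T.W.K (T.W.H X))) := ⟨v, deg, hdeg⟩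
  -- the conjugates
  have hli : ∀ σ : L →ₐ[T.W.K] ℂ, LinearIndependent ℂ (fun l => cs (T.W.H X) σ (v l)) := by
    intro σ
    refine Module.End.eigenvectors_linearIndependent' (f.baseChange ℂ) (fun l => σ (μ l))
      (σ.injective.comp hμ) _ (fun l => ⟨?_, ?_⟩)
    · rw [Module.End.mem_eigenspace_iff, ← cs_baseChange, hv, cs_smul]
    · intro h
      exact v.ne_zero l (cs_injective (A := T.W.H X) σ (by rw [h, map_zero]))
  let w : ∀ σ : L →ₐ[T.W.K] ℂ, Basis (Fin (finrank T.W.K (T.W.H X))) ℂ (ℂ ⊗[T.W.K] T.W.H X) :=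
    fun σ => basisOfLinearIndependentOfCardEqFinrank' _ (hli σ)
      (by rw [Fintype.card_fin, finrank_baseChange])
  have hw : ∀ σ l, w σ l = cs (T.W.H X) σ (v l) := by
    intro σ l
    rw [coe_basisOfLinearIndependentOfCardEqFinrank']
  have hwe : ∀ σ l, f.baseChange ℂ (w σ l) = σ (μ l) • w σ l := by
    intro σ l
    rw [hw, ← cs_baseChange, hv, cs_smul]
  have htype : ∀ (σ : L →ₐ[T.W.K] ℂ) l, ∃ r : ℤ × ℤ,
      (show (baseW T.W ℂ).H X from w σ l) ∈ T.pq X r.1 r.2 := by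
    intro σ l
    exact eig_homog (F := ℂ) (V := ℂ ⊗[T.W.K] T.W.H X) (g := f.baseChange ℂ)
      (A := fun r : ℤ × ℤ => T.pq X r.1 r.2) (T.dec.indep X)
      (pq_top T X) (fun r x hx => hpq r.1 r.2 x hx) (w σ) (μ := fun l => σ (μ l))
      (σ.injective.comp hμ) (hwe σ) l
  choose r hr using htype
  refine ⟨⟨B, fun σ => ⟨w σ, deg, fun l => ?_⟩, fun σ l => hw σ l, fun σ l => (r σ l).1,
    fun σ l => (r σ l).2, hr⟩, μ, hμ, fun σ l => hwe σ l⟩
  exact (congrArg (· ∈ (baseW T.W ℂ).gr X (deg l)) (hw σ l)).mpr (csH_gr σ (hdeg l))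

end AH

section AH

variable {T : AH.HodgeTheory ops} {F : Subfield ℂ}

/-- The de Rham cohomology. -/
def dRS (D : DeRham T.W F) (Y : 𝒱.Obj) : Set (HC T Y) := D.dR Y

/-- The number `2 π i`. -/
noncomputable def c0 (T : AH.HodgeTheory ops) : KC T := twoPiI

lemma tr_eqB {Y : 𝒱.Obj} (x : HC T Y) :
    (baseW T.W ℂ).tr Y x = (show KC T from
      baseTr (T.W.tr Y) (show Base T.W.K (T.W.H Y) from x)) := by
  refine cs_ind (K := T.W.K) (L := ℂ) (A := T.W.H Y) (P := fun x =>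
    (baseW T.W ℂ).tr Y x = (show KC T from
      baseTr (T.W.tr Y) (show Base T.W.K (T.W.H Y) from x))) ?_ ?_ ?_ x
  · exact (map_zero ((baseW T.W ℂ).tr Y)).trans (map_zero (baseTr (T.W.tr Y))).symm
  · intro x y hx hy
    exact (map_add ((baseW T.W ℂ).tr Y) x y).trans ((congrArg₂ (· + ·) hx hy).trans
      (map_add (baseTr (T.W.tr Y)) x y).symm)
  · intro l a
    have h2 : formBase ℂ (T.W.tr Y) (l ⊗ₜ[T.W.K] a) = l * algebraMap T.W.K ℂ (T.W.tr Y a) :=
      formBase_tmul _ _ _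
    exact h2.trans (Pool.Agent.Y133.Per.baseTr_tm (T.W.tr Y) l a).symm

lemma isDR (D : DeRham T.W F) : IsDR T F (c0 T) (dRS D) where
  add Y a ha b hb := (D.form Y).add a ha b hb
  smul Y r hr a ha := (D.form Y).smul r hr a ha
  span Y := (D.form Y).span
  one Y := by
    have h1 := (D.form Y).cyc 0 (T.W.cl Y Y.V.fundCycle) ⟨_, Y.V.fundCycle_mem, rfl⟩
    have h2 : twist (K := T.W.K) 0 (T.W.cl Y Y.V.fundCycle) =
        (show Base T.W.K (T.W.H Y) from (1 : HC T Y)) := by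
      rw [T.W.cl_fund Y, twist, pow_zero]
      exact (Algebra.TensorProduct.one_def (R := T.W.K) (A := ℂ) (B := T.W.H Y)).symm
    exact (congrArg (· ∈ D.dR Y) h2).mp h1
  mul Y a ha b hb := (D.form Y).mul a ha b hb
  map Y Z f a ha := D.map f a ha
  tr Y a ha := by
    obtain ⟨r, hr, h⟩ := (D.form Y).tr a ha
    exact ⟨r, hr, (tr_eqB a).trans h⟩
  ne := twoPiI_ne

lemma isDRB_iff (D : DeRham T.W F) {Y : 𝒱.Obj} {j : ℕ} {c : T.W.H Y} :
    IsDRB D Y j c ↔ DRB T (c0 T) (dRS D) Y j c := by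
  have h1 : (show Base T.W.K (T.W.H Y) from ((c0 T) ^ j • AH.em T.W ℂ c)) =
      twist (K := T.W.K) j c := by
    have h2 : ((c0 T) ^ j • AH.em T.W ℂ c) = (show HC T Y from
        ((twoPiI ^ j : ℂ) • ((1 : ℂ) ⊗ₜ[T.W.K] c : ℂ ⊗[T.W.K] T.W.H Y))) := rfl
    rw [h2]
    have h3 : ((twoPiI ^ j : ℂ) • ((1 : ℂ) ⊗ₜ[T.W.K] c : ℂ ⊗[T.W.K] T.W.H Y)) =
        (twoPiI ^ j) ⊗ₜ[T.W.K] c := by
      rw [TensorProduct.smul_tmul', smul_eq_mul, mul_one]
    exact h3
  constructor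
  · rintro ⟨h2, h3⟩
    exact ⟨h2, (congrArg (· ∈ D.dR Y) h1).mpr h3⟩
  · rintro ⟨h2, h3⟩
    exact ⟨h2, (congrArg (· ∈ D.dR Y) h1).mp h3⟩

/-- Elements which are algebraic over the coefficients. -/
lemma mem_F (hF : AlgClosedIn F) (D : DeRham T.W F) (Y : 𝒱.Obj) {L : Type} [Field L]
    [Algebra T.W.K L] [Algebra.IsAlgebraic T.W.K L] (σ : L →ₐ[T.W.K] ℂ) (x : L) : σ x ∈ F := by
  apply hF
  obtain ⟨P, hP, hP0⟩ := Algebra.IsAlgebraic.isAlgebraic (R := T.W.K) x
  let g : T.W.K →+* F := (algebraMap T.W.K ℂ).codRestrict F (D.form Y).scal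
  refine ⟨P.map g, (Polynomial.map_ne_zero_iff g.injective).2 hP, ?_⟩
  rw [Polynomial.aeval_def, Polynomial.eval₂_map]
  have h1 : Polynomial.aeval (σ x) P = 0 := by
    rw [Polynomial.aeval_algHom_apply, hP0, map_zero]
  rw [Polynomial.aeval_def] at h1
  exact h1

variable {I : Type w} {X : I → 𝒱.Obj}

/-- **The transcendence part.** -/
theorem exists_few' (hF : AlgClosedIn F) (D : DeRham T.W F)
    (hpos : ∀ (Y : 𝒱.Obj) (p q : ℤ), p < 0 ∨ q < 0 → T.pq Y p q = ⊥)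
    {f : ∀ i, T.W.H (X i) →ₗ[T.W.K] T.W.H (X i)} (hf : ∀ i, Squarefree (LinearMap.charpoly (f i)))
    (hgr : ∀ i, ∀ j, ∀ x ∈ T.W.gr (X i) j, f i x ∈ T.W.gr (X i) j)
    (hpq : ∀ i, ∀ (p q : ℤ), ∀ x : HC T (X i), x ∈ T.pq (X i) p q →
      opL ℂ (f i) x ∈ T.pq (X i) p q)
    (hdR : ∀ i, ∀ x ∈ dRS D (X i), opL ℂ (f i) x ∈ dRS D (X i))
    {R : ℕ} {E : Fin R → ∀ i, (T.W.H (X i) →ₗ[T.W.K] T.W.H (X i))} {z : Fin R → ℂ}
    (hE : ∀ (i : I) (p q : ℤ) (x : (baseW T.W ℂ).H (X i)), x ∈ T.pq (X i) p q →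
      ∑ j, (show (baseW T.W ℂ).K from z j) • opL ℂ (E j i) x =
        (show (baseW T.W ℂ).K from ((p - q : ℤ) : ℂ)) • x)
    (hdRB : ∀ (i : I) (Lst : List I) (j : ℕ) (c : T.W.H (Hel.prodOf X i Lst)),
      AH.IsHodge T (Hel.prodOf X i Lst) j c → IsDRB D (Hel.prodOf X i Lst) j c) :
    ∃ S : Finset I, S.card ≤ R + 1 ∧
      ((∀ i L, (∀ j ∈ i :: L, j ∈ S) → ∀ j c, IsDRB D (Hel.prodOf X i L) j c →
          AH.IsHodge T (Hel.prodOf X i L) j c) →
        ∀ i L j c, IsDRB D (Hel.prodOf X i L) j c → AH.IsHodge T (Hel.prodOf X i L) j c) := by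
  classical
  rcases isEmpty_or_nonempty I with hI | ⟨⟨i0⟩⟩
  · exact ⟨∅, by simp, fun _ i => hI.elim i⟩
  let L := AlgebraicClosure T.W.K
  have hchar : CharZero L := charZero_of_injective_algebraMap (algebraMap T.W.K L).injective
  let σ₀ : L →ₐ[T.W.K] ℂ := IsAlgClosed.lift
  have hfix : Fix T L := by
    intro x hx
    have h1 := (InfiniteGalois.mem_bot_iff_fixed (k := T.W.K) (K := L) x).2 fun τ => hx τ
    exact IntermediateField.mem_bot.1 h1
  have hM := fun i : I => exists_cmb' (T := T) (X := X i) (L := L) (f := f i) (hf i) (hgr i)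
      (fun p q x hx => hpq i p q x hx) (IsAlgClosed.splits _)
  choose M μ hμ hMμ using hM
  have hLF : ∀ (σ : L →ₐ[T.W.K] ℂ) (x : L), sc T (σ x) ∈ FC T F :=
    fun σ x => mem_F (T := T) hF D (X i0) (L := L) σ x
  have hS := isDR D
  have hω : ∀ (σ : L →ₐ[T.W.K] ℂ) (l : Σ i, Fin (finrank T.W.K (T.W.H (X i)))),
      ∃ c : KC T, c ≠ 0 ∧ c • ((M l.1).C σ).b l.2 ∈ dRS D (X l.1) := by
    intro σ l
    exact exists_scale (E := KC T) (F := FC T F) ((M l.1).C σ).b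
      (hS.span (X l.1)) (hS.add (X l.1)) (hS.smul (X l.1))
      (opL ℂ (f l.1)) (fun x hx => hdR l.1 x hx) (μ := fun a => sc T (σ (μ l.1 a)))
      (σ.injective.comp (hμ l.1)) (fun a => hLF σ _) (fun a => hMμ l.1 σ a) l.2
  choose ω hω0 hω1 using hω
  have hper : IsPer (dRS D) M ω := ⟨hω0, hω1⟩
  obtain ⟨S, hS1, hS2⟩ := drb_hodge (T := T) (X := X) (M := M) (ω := ω) hpos hS hper hLF hfix
    σ₀ (R := R) (D := E) (z := z) hE (fun i Lst j c hc => (isDRB_iff D).1 (hdRB i Lst j c hc))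
  exact ⟨S, hS1, fun h i Lst j c hc =>
    hS2 (fun i Lst hL j c hc => h i Lst hL j c ((isDRB_iff D).2 hc)) i Lst j c
      ((isDRB_iff D).1 hc)⟩

end AH

variable {T : AHS.HodgeTheory ops} {F : Subfield ℂ}

/-- Endomorphisms which preserve the types preserve the degrees. -/
lemma respDeg {X : 𝒱.Obj} {f : EndH T X} (hf : R940.RespTypes f) : R940.RespDeg f := by
  intro i x hx
  have h1 : AHS.emL T.W ℂ x ∈ AHS.grL T.W ℂ X i :=
    Submodule.tmul_mem_baseChange_of_mem (1 : ℂ) hx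
  rw [T.span X i] at h1
  have h2 : ∀ y : HL T.W ℂ X, y ∈ (⨆ r : {r : ℤ × ℤ // r.1 + r.2 = i}, T.pq X r.1.1 r.1.2) →
      endC f y ∈ (⨆ r : {r : ℤ × ℤ // r.1 + r.2 = i}, T.pq X r.1.1 r.1.2) := by
    intro y hy
    induction hy using Submodule.iSup_induction' with
    | mem r y hy =>
      exact Submodule.mem_iSup_of_mem r (hf _ _ y hy)
    | zero =>
      have h3 : endC f (0 : HL T.W ℂ X) = 0 :=
        map_zero (LinearMap.baseChange (R := T.W.K) (M := T.W.H X) (N := T.W.H X) ℂ f)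
      rw [h3]
      exact Submodule.zero_mem _
    | add y z _ _ hy hz =>
      have h3 : endC f (y + z) = endC f y + endC f z :=
        map_add (LinearMap.baseChange (R := T.W.K) (M := T.W.H X) (N := T.W.H X) ℂ f) y z
      rw [h3]
      exact Submodule.add_mem _ hy hz
  have h3 := h2 _ h1
  rw [← T.span X i] at h3
  have h4 : endC f (AHS.emL T.W ℂ x) = AHS.emL T.W ℂ (R940.endApp (K := T.W.K) f x) :=
    LinearMap.baseChange_tmul (R := T.W.K) (M := T.W.H X) (N := T.W.H X) (f := f) (1 : ℂ) x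
  rw [h4] at h3
  exact mem_of_baseChange (K := T.W.K) (L := ℂ) (G := T.W.gr X i) h3

variable {I : Type w} {X : I → 𝒱.Obj}

lemma hgDimLe {R : ℕ} (hR : HgDimLe T X R) : HodgeGroupDimLe T X R := hR

/-- **The transcendence part.** -/
theorem exists_few (hF : AlgClosedIn F) (D : DeRham T.W F) (hpos : NonnegTypes T)
    (hX : ∀ i, IsCMdR D (X i)) (hdRB : ∀ i L, HodgeAreDRB D (Hel2.prodOf X i L)) {R : ℕ}
    (hR : HodgeGroupDimLe T X R) :
    ∃ S : Finset I, S.card ≤ R + 1 ∧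
      ((∀ i L, (∀ j ∈ i :: L, j ∈ S) → DRBAreHodge D (Hel2.prodOf X i L)) →
        ∀ i L, DRBAreHodge D (Hel2.prodOf X i L)) := by
  classical
  choose f hf hpq hdR using hX
  obtain ⟨E, z, hE⟩ := hR
  obtain ⟨S, hS1, hS2⟩ := exists_few' (T := toH T) (X := X) hF (D := D) hpos (f := f) hf
    (fun i => respDeg (hpq i)) hpq hdR
    (R := R) (E := E) (z := z) (fun i p q x hx => hE i p q x hx)
    (fun i Lst j c hc => by
      have h1 := hdRB i Lst
      rw [prodOf_eq] at h1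
      exact h1 j c hc)
  refine ⟨S, hS1, fun h i Lst j c hc => ?_⟩
  have h1 := hS2 (fun i Lst hL j c hc => by
    have h2 := h i Lst hL
    rw [prodOf_eq] at h2
    exact h2 j c hc) i Lst
  rw [← prodOf_eq] at h1
  exact h1 j c hc

/-- The period conjecture for all products. -/
theorem gpc_iff (hF : AlgClosedIn F) (D : DeRham T.W F) (hpos : NonnegTypes T)
    (hX : ∀ i, IsCMdR D (X i)) (hdRB : ∀ i L, HodgeAreDRB D (Hel2.prodOf X i L)) {R : ℕ}
    (hR : HgDimLe T X R) :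
    ∃ S : Finset I, S.card ≤ R + 1 ∧
      ((∀ i L, DRBAreHodge D (Hel2.prodOf X i L)) ↔
        ∀ i L, (∀ j ∈ i :: L, j ∈ S) → DRBAreHodge D (Hel2.prodOf X i L)) ∧
      ∀ m : ℕ∞, IsFactorBound X R m →
        ((∀ i L, GPCAll D (Hel2.prodOf X i L)) ↔
          (∀ i L, (∀ j ∈ i :: L, j ∈ S) → DRBAreHodge D (Hel2.prodOf X i L)) ∧
          ∀ i L, Few (R + 1) m (i :: L) → HodgeAll T (Hel2.prodOf X i L)) := by
  obtain ⟨S, hS1, hS2⟩ := exists_few hF D hpos hX hdRB (hgDimLe hR)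
  refine ⟨S, hS1, ⟨fun h i L _ => h i L, hS2⟩, fun m hm => ⟨fun h => ⟨fun i L _ j c hc => ?_,
    fun i L _ j c hc => h i L j c (hdRB i L j c hc)⟩, fun h i L j c hc => ?_⟩⟩
  · obtain ⟨z, hz, rfl⟩ := h i L j c hc
    exact T.cyc _ j z hz
  · have hcm : ∀ i, IsCM T (X i) := fun i => by
      obtain ⟨f, h1, h2, _⟩ := hX i
      exact ⟨f, h1, respDeg h2, h2⟩
    exact hodge_red hpos hcm (hgDimLe hR) hm h.2 i L j c (hS2 h.1 i L j c hc)

end Pool.Agent.R936.Per
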