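import Mathlib

/-!
# Linear algebra over a subfield, and Galois descent
-/

set_option linter.unusedVariables false
set_option linter.unusedSectionVars false

open Module

namespace Pool.Agent.R936.Per

section Form

variable {E : Type*} [Field E] {F : Subfield E} {V : Type*} [AddCommGroup V] [Module E V]
  {κ : Type*} [Finite κ]

/-- The coefficients of the vectors of an `F`-form. -/
lemma coeff_mem (b : Basis κ E V) {U : Set V} (hb : ∀ a, b a ∈ U)
    (B : V →ₗ[E] V →ₗ[E] E) (hB : ∀ v, (∀ w, B v w = 0) → v = 0)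
    (hU : ∀ v ∈ U, ∀ w ∈ U, B v w ∈ F) {x : V} (hx : x ∈ U) (a : κ) : b.repr x a ∈ F := by
  classical
  cases nonempty_fintype κ
  let R : Matrix κ κ F := fun i j => ⟨B (b i) (b j), hU _ (hb i) _ (hb j)⟩
  have hdet : R.det ≠ 0 := by
    intro h0
    have h1 : (R.map (algebraMap F E)).det = 0 := by
      rw [← RingHom.mapMatrix_apply, ← RingHom.map_det, h0, map_zero]
    obtain ⟨y, hy, hy0⟩ := Matrix.exists_vecMul_eq_zero_iff.2 h1
    apply hy
    have h2 : ∑ i, y i • b i = 0 := by
      apply hB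
      intro w
      have h3 : ∀ j, B (∑ i, y i • b i) (b j) = 0 := by
        intro j
        have h4 := congrFun hy0 j
        rw [Matrix.vecMul, dotProduct] at h4
        rw [map_sum, LinearMap.sum_apply]
        rw [Pi.zero_apply] at h4
        rw [← h4]
        apply Finset.sum_congr rfl
        intro i _
        rw [map_smul, LinearMap.smul_apply, smul_eq_mul]
        rfl
      have h5 : B (∑ i, y i • b i) = 0 := b.ext fun j => by rw [h3, LinearMap.zero_apply]
      rw [h5, LinearMap.zero_apply]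
    have h6 := Fintype.linearIndependent_iff.1 b.linearIndependent y h2
    funext i
    exact h6 i
  let t : κ → F := fun j => ⟨B x (b j), hU _ hx _ (hb j)⟩
  let y : κ → F := Matrix.vecMul t R⁻¹
  have hy : Matrix.vecMul y R = t := by
    rw [Matrix.vecMul_vecMul, Matrix.nonsing_inv_mul _ (isUnit_iff_ne_zero.2 hdet),
      Matrix.vecMul_one]
  have hx' : x = ∑ i, (y i : E) • b i := by
    rw [← sub_eq_zero]
    apply hB
    intro w
    have h3 : ∀ j, B (x - ∑ i, (y i : E) • b i) (b j) = 0 := by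
      intro j
      have h4 := congrArg (fun z : F => (z : E)) (congrFun hy j)
      rw [Matrix.vecMul, dotProduct] at h4
      rw [map_sub, LinearMap.sub_apply, map_sum, LinearMap.sum_apply, sub_eq_zero]
      have h5 : ((t j : F) : E) = B x (b j) := rfl
      rw [← h5, ← h4]
      push_cast
      apply Finset.sum_congr rfl
      intro i _
      rw [map_smul, LinearMap.smul_apply, smul_eq_mul]
    have h5 : B (x - ∑ i, (y i : E) • b i) = 0 :=
      b.ext fun j => by rw [h3, LinearMap.zero_apply]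
    rw [h5, LinearMap.zero_apply]
  rw [hx', b.repr_sum_self]
  exact (y a).2

/-- Two multiples of the same vector in an `F`-form. -/
lemma ratio_mem {U : Set V} (hspan : Submodule.span E U = ⊤)
    (B : V →ₗ[E] V →ₗ[E] E) (hB : ∀ v, (∀ w, B v w = 0) → v = 0)
    (hU : ∀ v ∈ U, ∀ w ∈ U, B v w ∈ F) {u : V} (hu : u ≠ 0) {c d : E} (hd : d ≠ 0)
    (h1 : c • u ∈ U) (h2 : d • u ∈ U) : c / d ∈ F := by
  obtain ⟨w, hw, hw1⟩ : ∃ w ∈ U, B u w ≠ 0 := by
    by_contra hcon
    push Not at hcon
    apply hu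
    apply hB
    intro w
    have h3 : w ∈ Submodule.span E U := by rw [hspan]; trivial
    induction h3 using Submodule.span_induction with
    | mem w hw => exact hcon w hw
    | zero => rw [map_zero]
    | add x y _ _ hx hy => rw [map_add, hx, hy, add_zero]
    | smul c x _ hx => rw [map_smul, hx, smul_zero]
  have h3 := hU _ h1 _ hw
  have h4 := hU _ h2 _ hw
  rw [map_smul, LinearMap.smul_apply, smul_eq_mul] at h3 h4
  have h5 : c / d = (c * B u w) / (d * B u w) := by
    field_simp
  rw [h5]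
  exact F.div_mem h3 h4

/-- Eigenvectors in an `F`-form. -/
lemma exists_scale (b : Basis κ E V) {U : Set V} (hspan : Submodule.span E U = ⊤)
    (hadd : ∀ x ∈ U, ∀ y ∈ U, x + y ∈ U) (hsmul : ∀ c ∈ F, ∀ x ∈ U, c • x ∈ U)
    (f : V →ₗ[E] V) (hf : ∀ x ∈ U, f x ∈ U) {μ : κ → E} (hμ : Function.Injective μ)
    (hμF : ∀ a, μ a ∈ F) (hfb : ∀ a, f (b a) = μ a • b a) (a : κ) :
    ∃ c : E, c ≠ 0 ∧ c • b a ∈ U := by
  classical
  cases nonempty_fintype κ
  have hrepr : ∀ (x : V) (c : κ), b.repr (f x) c = μ c * b.repr x c := by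
    intro x c
    conv_lhs => rw [← b.sum_repr x, map_sum]
    have h1 : ∑ i, f (b.repr x i • b i) = ∑ i, (μ i * b.repr x i) • b i := by
      refine Finset.sum_congr rfl fun i _ => ?_
      rw [map_smul, hfb, smul_smul, mul_comm]
    rw [h1, b.repr_sum_self]
  obtain ⟨x, hx, hxa⟩ : ∃ x ∈ U, b.repr x a ≠ 0 := by
    by_contra hcon
    push Not at hcon
    have h1 : ∀ w : V, b.coord a w = 0 := by
      intro w
      have h3 : w ∈ Submodule.span E U := by rw [hspan]; trivial
      induction h3 using Submodule.span_induction with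
      | mem w hw => exact hcon w hw
      | zero => rw [map_zero]
      | add x y _ _ hx hy => rw [map_add, hx, hy, add_zero]
      | smul c x _ hx => rw [map_smul, hx, smul_zero]
    have h2 := h1 (b a)
    rw [Basis.coord_apply, b.repr_self, Finsupp.single_eq_same] at h2
    exact one_ne_zero h2
  have key : ∀ s : Finset κ, a ∉ s → ∃ y ∈ U, b.repr y a ≠ 0 ∧ ∀ c ∈ s, b.repr y c = 0 := by
    intro s
    induction s using Finset.induction_on with
    | empty => exact fun _ => ⟨x, hx, hxa, fun c hc => absurd hc (Finset.notMem_empty c)⟩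
    | insert c s hc ih =>
      intro ha
      rw [Finset.mem_insert, not_or] at ha
      obtain ⟨y, hy, h1, h2⟩ := ih ha.2
      refine ⟨f y + (-μ c) • y, hadd _ (hf y hy) _ (hsmul _ (F.neg_mem (hμF c)) _ hy), ?_, ?_⟩
      · rw [map_add, map_smul, Finsupp.add_apply, Finsupp.smul_apply, hrepr, smul_eq_mul,
          ← add_mul, ← sub_eq_add_neg]
        exact mul_ne_zero (sub_ne_zero.2 fun h => ha.1 (hμ h)) h1
      · intro e he
        rw [map_add, map_smul, Finsupp.add_apply, Finsupp.smul_apply, hrepr, smul_eq_mul,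
          ← add_mul, ← sub_eq_add_neg]
        rcases Finset.mem_insert.1 he with rfl | he
        · rw [sub_self, zero_mul]
        · rw [h2 e he, mul_zero]
  obtain ⟨y, hy, h1, h2⟩ := key (Finset.univ.erase a) (Finset.notMem_erase a _)
  refine ⟨b.repr y a, h1, ?_⟩
  have h3 : b.repr y a • b a = y := by
    conv_rhs => rw [← b.sum_repr y]
    rw [Finset.sum_eq_single a]
    · intro c _ hc
      rw [h2 c (Finset.mem_erase.2 ⟨hc, Finset.mem_univ c⟩), zero_smul]
    · exact fun h => absurd (Finset.mem_univ a) h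
  rw [h3]
  exact hy

end Form

section Descent

variable {K L κ : Type*} [Field K] [Field L] [Algebra K L] [Finite κ]

/-- **Galois descent** for possibly infinite extensions. -/
lemma descent (hfix : ∀ x : L, (∀ g : L ≃ₐ[K] L, g x = x) → x ∈ Set.range (algebraMap K L))
    (V : Submodule L (κ → L)) (hV : ∀ g : L ≃ₐ[K] L, ∀ v ∈ V, (fun a => g (v a)) ∈ V)
    {v : κ → L} (hv : v ∈ V) :
    v ∈ Submodule.span L {v | v ∈ V ∧ ∀ a, v a ∈ Set.range (algebraMap K L)} := by
  classical
  cases nonempty_fintype κ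
  induction hn : (Finset.univ.filter fun a => v a ≠ 0).card using Nat.strong_induction_on
    generalizing v with
  | _ n ih =>
    subst hn
    by_cases h0 : ∃ i, v i ≠ 0
    swap
    · push Not at h0
      have h1 : v = 0 := funext h0
      rw [h1]
      exact Submodule.zero_mem _
    obtain ⟨i, hi⟩ := h0
    -- normalise
    set v' : κ → L := (v i)⁻¹ • v with hv'
    have hv'V : v' ∈ V := Submodule.smul_mem _ _ hv
    have hv'a : ∀ a, v' a = (v i)⁻¹ * v a := fun a => rfl
    have hv'i : v' i = 1 := by rw [hv'a, inv_mul_cancel₀ hi]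
    have hback : v = v i • v' := by rw [hv', smul_smul, mul_inv_cancel₀ hi, one_smul]
    rw [hback]
    refine Submodule.smul_mem _ _ ?_
    by_cases hrat : ∀ a, v' a ∈ Set.range (algebraMap K L)
    · exact Submodule.subset_span ⟨hv'V, hrat⟩
    push Not at hrat
    obtain ⟨j, hj⟩ := hrat
    obtain ⟨g, hg⟩ : ∃ g : L ≃ₐ[K] L, g (v' j) ≠ v' j := by
      by_contra hcon
      push Not at hcon
      exact hj (hfix _ hcon)
    set w : κ → L := fun a => g (v' a) - v' a with hw
    have hwV : w ∈ V := Submodule.sub_mem _ (hV g v' hv'V) hv'V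
    have hsupp : ∀ a, v a = 0 → v' a = 0 := fun a ha => by rw [hv'a, ha, mul_zero]
    have hlt : ∀ (u : κ → L) (m : κ), v m ≠ 0 → (∀ a, v a = 0 → u a = 0) → u m = 0 →
        (Finset.univ.filter fun a => u a ≠ 0).card <
          (Finset.univ.filter fun a => v a ≠ 0).card := by
      intro u m hm hu hum
      refine Finset.card_lt_card ⟨?_, ?_⟩
      · intro a ha
        rw [Finset.mem_filter] at ha ⊢
        exact ⟨ha.1, fun h => ha.2 (hu a h)⟩
      · intro h
        have h1 := h (Finset.mem_filter.2 ⟨Finset.mem_univ m, hm⟩)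
        exact (Finset.mem_filter.1 h1).2 hum
    have hwmem := ih _ (hlt w i hi (fun a ha => by
      rw [hw]; beta_reduce; rw [hsupp a ha, map_zero, sub_zero]) (by
      rw [hw]; beta_reduce; rw [hv'i, map_one, sub_self])) hwV rfl
    have hwj : w j ≠ 0 := sub_ne_zero.2 hg
    have hvj : v j ≠ 0 := fun h => hg (by rw [hsupp j h, map_zero])
    have humem := ih _ (hlt (v' - (v' j / w j) • w) j hvj (fun a ha => by
      rw [Pi.sub_apply, Pi.smul_apply, hsupp a ha, hw]
      beta_reduce
      rw [hsupp a ha, map_zero, sub_zero, smul_zero, sub_zero]) (by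
      rw [Pi.sub_apply, Pi.smul_apply, smul_eq_mul, div_mul_cancel₀ _ hwj, sub_self]))
      (Submodule.sub_mem _ hv'V (Submodule.smul_mem _ _ hwV)) rfl
    have h1 := Submodule.add_mem _ humem (Submodule.smul_mem _ (v' j / w j) hwmem)
    rwa [sub_add_cancel] at h1

end Descent

section Letters

variable {Lt S : Type*}

lemma sumQ (h : Lt → S → ℤ) (M : Multiset Lt) (s : S) :
    ((M.map fun l s => (h l s : ℚ)).sum s) = (((M.map h).sum s : ℤ) : ℚ) := by
  induction M using Multiset.induction_on with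
  | empty => rw [Multiset.map_zero, Multiset.sum_zero, Multiset.map_zero, Multiset.sum_zero,
      Pi.zero_apply, Pi.zero_apply, Int.cast_zero]
  | cons l M ih =>
    rw [Multiset.map_cons, Multiset.sum_cons, Multiset.map_cons, Multiset.sum_cons,
      Pi.add_apply, Pi.add_apply, ih, Int.cast_add]

/-- A maximal independent set of letters. -/
lemma exists_letters (h : Lt → S → ℤ) {N : ℕ}
    (hN : ∀ s : Fin (N + 1) → Lt, ∃ a : Fin (N + 1) → ℤ, a ≠ 0 ∧ ∑ i, a i • h (s i) = 0) :
    ∃ J : Finset Lt, J.card ≤ N ∧ ∀ M : Multiset Lt, ∃ (n : ℕ) (c : Lt → ℤ), 0 < n ∧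
      n • (M.map h).sum = ∑ j ∈ J, c j • h j := by
  classical
  let hQ : Lt → S → ℚ := fun l s => (h l s : ℚ)
  obtain ⟨κ, e, he, hspan, hli⟩ := exists_linearIndependent' ℚ hQ
  have hcard : ¬ Nonempty (Fin (N + 1) ↪ κ) := by
    rintro ⟨f⟩
    obtain ⟨a, ha, h1⟩ := hN fun i => e (f i)
    apply ha
    have h2 : ∑ i, (a i : ℚ) • hQ (e (f i)) = 0 := by
      funext s
      have h3 := congrFun h1 s
      rw [Finset.sum_apply, Pi.zero_apply] at h3 ⊢
      have h4 : (((∑ i, (a i • h (e (f i))) s : ℤ)) : ℚ) = 0 := by rw [h3, Int.cast_zero]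
      rw [← h4]
      push_cast
      refine Finset.sum_congr rfl fun i _ => ?_
      rw [Pi.smul_apply, Pi.smul_apply, smul_eq_mul, smul_eq_mul, Int.cast_mul]
    have h5 := Fintype.linearIndependent_iff.1 (hli.comp f f.injective) (fun i => (a i : ℚ)) h2
    funext i
    have h6 := h5 i
    rw [Int.cast_eq_zero] at h6
    exact h6
  have hfin : Finite κ := by
    by_contra hinf
    rw [not_finite_iff_infinite] at hinf
    exact hcard ⟨(Fin.valEmbedding).trans (Infinite.natEmbedding κ)⟩
  cases nonempty_fintype κ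
  have hc : Fintype.card κ ≤ N := by
    by_contra hcon
    push Not at hcon
    apply hcard
    have h1 : Fintype.card (Fin (N + 1)) ≤ Fintype.card κ := by
      rw [Fintype.card_fin]
      exact hcon
    exact Function.Embedding.nonempty_of_card_le h1
  refine ⟨Finset.univ.image e, (Finset.card_image_le).trans hc, fun M => ?_⟩
  have hmem : (M.map hQ).sum ∈ Submodule.span ℚ (Set.range (hQ ∘ e)) := by
    rw [hspan]
    refine multiset_sum_mem _ fun x hx => ?_
    obtain ⟨l, _, rfl⟩ := Multiset.mem_map.1 hx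
    exact Submodule.subset_span ⟨l, rfl⟩
  obtain ⟨c, hc⟩ := (Submodule.mem_span_range_iff_exists_fun ℚ).1 hmem
  obtain ⟨⟨n, hn⟩, hn'⟩ := IsLocalization.exist_integer_multiples_of_finite
    (nonZeroDivisors ℤ) (S := ℚ) c
  have hn0 : n ≠ 0 := nonZeroDivisors.ne_zero hn
  choose a ha using hn'
  have ha' : ∀ i, (a i : ℚ) = (n : ℚ) * c i := by
    intro i
    have h2 : ((a i : ℤ) : ℚ) = n • c i := ha i
    rwa [zsmul_eq_mul] at h2
  have hsumQ : ∀ s, ((M.map hQ).sum s) = (((M.map h).sum s : ℤ) : ℚ) := sumQ h M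
  have hpos : 0 < n.natAbs := Int.natAbs_pos.2 hn0
  refine ⟨n.natAbs, fun l => if hl : ∃ i, e i = l then Int.sign n * a hl.choose else 0, hpos, ?_⟩
  funext s
  have h1 : ∀ i : κ, (if hl : ∃ i', e i' = e i then Int.sign n * a hl.choose else 0) =
      Int.sign n * a i := by
    intro i
    have h2 : ∃ i', e i' = e i := ⟨i, rfl⟩
    rw [dif_pos h2, he h2.choose_spec]
  rw [Finset.sum_image fun x _ y _ hxy => he hxy]
  have h3 : ((((n.natAbs • (M.map h).sum) s : ℤ)) : ℚ) =
      ((((∑ i : κ, (Int.sign n * a i) • h (e i)) s : ℤ)) : ℚ) := by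
    have h4 := congrFun hc s
    rw [hsumQ, Finset.sum_apply] at h4
    rw [Pi.smul_apply, Finset.sum_apply, nsmul_eq_mul]
    push_cast
    rw [← h4, Finset.mul_sum]
    refine Finset.sum_congr rfl fun i _ => ?_
    rw [Pi.smul_apply, Pi.smul_apply, smul_eq_mul, smul_eq_mul]
    push_cast
    rw [ha' i]
    have h6 : (hQ ∘ e) i s = (h (e i) s : ℚ) := rfl
    have h7 : |(n : ℚ)| = (Int.sign n : ℚ) * n := by
      rw [← Int.cast_mul, Int.sign_mul_self_eq_abs, Int.cast_abs]
    rw [h6, h7]
    ring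
  have h8 : (n.natAbs • (M.map h).sum) s = (∑ i : κ, (Int.sign n * a i) • h (e i)) s := by
    exact_mod_cast h3
  rw [h8]
  simp only [h1]

end Letters

end Pool.Agent.R936.Per
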