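import Pool.Agent.R936.Hel2.Fin
import Pool.Agent.R936.Per.Lin

/-!
# De Rham structures and words
-/

set_option linter.unusedVariables false
set_option linter.unusedSectionVars false

open CategoryTheory AlgebraicGeometry TensorProduct

universe u w

namespace Pool.Agent.R936.Per

open Pool.Agent.H914 Pool.Agent.W534 VarClass Obj WeilCohomology
open Pool.Agent.Y121
open Pool.Agent.Y163 (HBasis)
open Pool.Agent.R940 (CMB csH csH_smul csH_map csH_em csH_gr csH_inj cs cs_ind cs_tmul cs_comp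
  cs_smul cs_mem HSub em_HSub type_bound deg_eq repr_zero mem_of_baseChange)
open Pool.Agent.R936.Hel
open Pool.Agent.R936.Hel2 (BB CC pt wt st st_cons csH_lwf lwf_type st_eq pt_nonneg st_nonneg st_add
  WB exists_WB repr_csH st_dual pt_le_dim wt_le_dim)

variable {k : Type u} [Field k] {𝒱 : VarClass k} {ops : CycleOps 𝒱}
  {T : AH.HodgeTheory ops} {Y Z : 𝒱.Obj}

/-- The complex cohomology. -/
abbrev HC (T : AH.HodgeTheory ops) (Y : 𝒱.Obj) := (baseW T.W ℂ).H Y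

/-- The complex numbers. -/
abbrev KC (T : AH.HodgeTheory ops) := (baseW T.W ℂ).K

/-- The subfield of the coefficients. -/
abbrev FC (T : AH.HodgeTheory ops) (F : Subfield ℂ) : Subfield (baseW T.W ℂ).K := F

/-- The complex number as a coefficient. -/
abbrev sc (T : AH.HodgeTheory ops) (c : ℂ) : (baseW T.W ℂ).K := c

/-- The formal properties of the de Rham cohomology `S`. -/
structure IsDR (T : AH.HodgeTheory ops) (F : Subfield ℂ) (c0 : (baseW T.W ℂ).K)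
    (S : ∀ Y : 𝒱.Obj, Set (HC T Y)) : Prop where
  add : ∀ Y, ∀ a ∈ S Y, ∀ b ∈ S Y, a + b ∈ S Y
  smul : ∀ Y, ∀ r ∈ FC T F, ∀ a ∈ S Y, r • a ∈ S Y
  span : ∀ Y, Submodule.span (baseW T.W ℂ).K (S Y) = ⊤
  one : ∀ Y, (1 : HC T Y) ∈ S Y
  mul : ∀ Y, ∀ a ∈ S Y, ∀ b ∈ S Y, a * b ∈ S Y
  map : ∀ (Y Z : 𝒱.Obj) (f : Y ⟶ Z), ∀ a ∈ S Z, (baseW T.W ℂ).map f a ∈ S Y
  tr : ∀ Y, ∀ a ∈ S Y, ∃ r ∈ FC T F, (baseW T.W ℂ).tr Y a = c0 ^ Y.dim * r
  ne : c0 ≠ 0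

variable {F : Subfield ℂ} {c0 : (baseW T.W ℂ).K} {S : ∀ Y : 𝒱.Obj, Set (HC T Y)}

/-- The form. -/
noncomputable def frm (T : AH.HodgeTheory ops) (c0 : (baseW T.W ℂ).K) (Y : 𝒱.Obj) :
    HC T Y →ₗ[(baseW T.W ℂ).K] HC T Y →ₗ[(baseW T.W ℂ).K] (baseW T.W ℂ).K :=
  (c0 ^ Y.dim)⁻¹ • ((LinearMap.mul (baseW T.W ℂ).K (HC T Y)).compr₂ ((baseW T.W ℂ).tr Y))

lemma frm_apply (v w : HC T Y) :
    frm T c0 Y v w = (c0 ^ Y.dim)⁻¹ * (baseW T.W ℂ).tr Y (v * w) := rfl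

lemma frm_nondeg (hc : c0 ≠ 0) (v : HC T Y) (h : ∀ w, frm T c0 Y v w = 0) : v = 0 := by
  apply (baseW T.W ℂ).nondeg
  intro w
  have h1 := h w
  rw [frm_apply] at h1
  exact (mul_eq_zero.1 h1).resolve_left (inv_ne_zero (pow_ne_zero _ hc))

lemma IsDR.frm_mem (hS : IsDR T F c0 S) {Y : 𝒱.Obj} : ∀ v ∈ S Y, ∀ w ∈ S Y,
    frm T c0 Y v w ∈ FC T F := by
  intro v hv w hw
  obtain ⟨r, hr, h⟩ := hS.tr Y _ (hS.mul Y v hv w hw)
  rw [frm_apply, h, ← mul_assoc, inv_mul_cancel₀ (pow_ne_zero _ hS.ne), one_mul]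
  exact hr

/-- Coefficients with respect to a basis in the de Rham cohomology. -/
lemma IsDR.coeff (hS : IsDR T F c0 S) {κ : Type*} [Finite κ]
    (b : Module.Basis κ (baseW T.W ℂ).K (HC T Y)) (hb : ∀ a, b a ∈ S Y) {x : HC T Y}
    (hx : x ∈ S Y) (a : κ) : b.repr x a ∈ FC T F :=
  coeff_mem b hb (frm T c0 Y) (frm_nondeg hS.ne) hS.frm_mem hx a

lemma IsDR.ratio (hS : IsDR T F c0 S) {u : HC T Y} (hu : u ≠ 0) {c d : (baseW T.W ℂ).K}
    (hd : d ≠ 0) (h1 : c • u ∈ S Y) (h2 : d • u ∈ S Y) : c / d ∈ FC T F :=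
  ratio_mem (hS.span Y) (frm T c0 Y) (frm_nondeg hS.ne) hS.frm_mem hu hd h1 h2

variable {L : Type} [Field L] [Algebra T.W.K L] {I : Type w} {X : I → 𝒱.Obj} {ι : I → Type}

/-- Periods of the letters. -/
structure IsPer (S : ∀ Y : 𝒱.Obj, Set (HC T Y)) (M : ∀ i, CMB T (X i) L (ι i))
    (ω : (L →ₐ[T.W.K] ℂ) → (Σ i, ι i) → (baseW T.W ℂ).K) : Prop where
  ne : ∀ σ l, ω σ l ≠ 0
  mem : ∀ σ l, ω σ l • ((M l.1).C σ).b l.2 ∈ S (X l.1)

variable {M : ∀ i, CMB T (X i) L (ι i)} {ω : (L →ₐ[T.W.K] ℂ) → (Σ i, ι i) → (baseW T.W ℂ).K}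

/-- The period of a multiset of letters. -/
noncomputable def Per (ω : (L →ₐ[T.W.K] ℂ) → (Σ i, ι i) → (baseW T.W ℂ).K)
    (σ : L →ₐ[T.W.K] ℂ) (P : Multiset (Σ i, ι i)) : (baseW T.W ℂ).K := (P.map (ω σ)).prod

lemma Per_add (σ : L →ₐ[T.W.K] ℂ) (P Q : Multiset (Σ i, ι i)) :
    Per ω σ (P + Q) = Per ω σ P * Per ω σ Q := by
  rw [Per, Multiset.map_add, Multiset.prod_add]
  rfl

lemma Per_nsmul (σ : L →ₐ[T.W.K] ℂ) (n : ℕ) (P : Multiset (Σ i, ι i)) :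
    Per ω σ (n • P) = Per ω σ P ^ n := by
  rw [Per, Multiset.map_nsmul, Multiset.prod_nsmul]
  rfl

lemma Per_ne (hω : IsPer S M ω) (σ : L →ₐ[T.W.K] ℂ) (P : Multiset (Σ i, ι i)) :
    Per ω σ P ≠ 0 := by
  rw [Per]
  intro h
  obtain ⟨l, _, hl⟩ := Multiset.mem_map.1 (Multiset.prod_eq_zero_iff.1 h)
  exact hω.ne σ l hl

lemma Per_cons (σ : L →ₐ[T.W.K] ℂ) (l : Σ i, ι i) (P : Multiset (Σ i, ι i)) :
    Per ω σ (l ::ₘ P) = ω σ l * Per ω σ P := by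
  rw [Per, Multiset.map_cons, Multiset.prod_cons]
  rfl

lemma per_lwf (hS : IsDR T F c0 S) (hω : IsPer S M ω) (σ : L →ₐ[T.W.K] ℂ)
    (N : List (Lt X ι Z)) :
    Per ω σ (↑(N.map Sigma.fst) : Multiset (Σ i, ι i)) • lwf (CC M σ) N ∈ S Z := by
  induction N with
  | nil =>
    have h1 : Per ω σ (↑((([] : List (Lt X ι Z))).map Sigma.fst) : Multiset (Σ i, ι i)) = 1 := rfl
    rw [h1, one_smul]
    exact hS.one Z
  | cons y N ih =>
    have h1 : (↑((y :: N).map Sigma.fst) : Multiset (Σ i, ι i)) =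
        y.1 ::ₘ (↑(N.map Sigma.fst) : Multiset (Σ i, ι i)) := rfl
    rw [h1, Per_cons, lwf_cons]
    have h2 := hS.mul Z _ (hS.map _ _ y.2 _ (hω.mem σ y.1)) _ ih
    rwa [map_smul, smul_mul_smul_comm] at h2

/-- The words which occur in de Rham classes. -/
lemma per_of_repr (hS : IsDR T F c0 S) (hω : IsPer S M ω)
    (hLF : ∀ (σ : L →ₐ[T.W.K] ℂ) (x : L), sc T (σ x) ∈ FC T F)
    {κ : Type} [Finite κ] {N : κ → List (Lt X ι Z)} (hN : WB ops X ι Z κ N)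
    {b : Module.Basis κ (baseW T.W L).K ((baseW T.W L).H Z)} (hb : ∀ a, b a = lwf (BB M) (N a))
    (σ : L →ₐ[T.W.K] ℂ) {c : (baseW T.W ℂ).K} (hc : c ≠ 0) {x : (baseW T.W L).H Z}
    (hx : c • csH σ Z x ∈ S Z) {a : κ} (ha : b.repr x a ≠ 0) :
    Per ω σ (↑((N a).map Sigma.fst) : Multiset (Σ i, ι i)) / c ∈ FC T F := by
  classical
  obtain ⟨b', hb'⟩ := hN _ (CC M σ)
  let u : κ → (baseW T.W ℂ).Kˣ := fun a =>
    Units.mk0 (Per ω σ (↑((N a).map Sigma.fst) : Multiset (Σ i, ι i))) (Per_ne hω σ _)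
  have h1 := hS.coeff (b'.unitsSMul u) (fun a => by
    rw [Module.Basis.unitsSMul_apply, hb']
    exact per_lwf hS hω σ (N a)) hx a
  rw [Module.Basis.repr_unitsSMul, map_smul, Finsupp.smul_apply, repr_csH M hb σ hb'] at h1
  have h2 : sc T (σ (b.repr x a)) ∈ FC T F := hLF σ _
  have h3 : sc T (σ (b.repr x a)) ≠ 0 := fun h =>
    ha (σ.injective (h.trans (map_zero σ).symm))
  have h4 := (FC T F).div_mem h2 h1
  have h5 : (sc T (σ (b.repr x a))) / ((u a)⁻¹ • c • (show (baseW T.W ℂ).K from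
      σ (b.repr x a))) = Per ω σ (↑((N a).map Sigma.fst) : Multiset (Σ i, ι i)) / c := by
    have h6 : ((u a)⁻¹ • c • (show (baseW T.W ℂ).K from σ (b.repr x a))) =
        (Per ω σ (↑((N a).map Sigma.fst) : Multiset (Σ i, ι i)))⁻¹ *
          (c * sc T (σ (b.repr x a))) := by
      rw [Units.smul_def, smul_eq_mul, smul_eq_mul, Units.val_inv_eq_inv_val]
      rfl
    rw [h6]
    have h7 := Per_ne hω σ (↑((N a).map Sigma.fst) : Multiset (Σ i, ι i))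
    field_simp
  rwa [h5] at h4

end Pool.Agent.R936.Per
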