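import Pool.Agent.R936.Per.DR

/-!
# Descent, and the relations between the periods and the types of words
-/

set_option linter.unusedVariables false
set_option linter.unusedSectionVars false

open CategoryTheory AlgebraicGeometry TensorProduct

universe u w

namespace Pool.Agent.R936.Per

open Pool.Agent.H914 Pool.Agent.W534 VarClass Obj WeilCohomology
open Pool.Agent.Y121
open Pool.Agent.Y163 (HBasis)
open Pool.Agent.R940 (CMB csH csH_smul csH_map csH_em csH_gr csH_inj cs cs_ind cs_tmul cs_comp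
  cs_smul cs_mem HSub em_HSub type_bound deg_eq repr_zero mem_of_baseChange)
open Pool.Agent.R936.Hel
open Pool.Agent.R936.Hel2 (BB CC pt wt st st_cons csH_lwf lwf_type st_eq pt_nonneg st_nonneg st_add
  WB exists_WB repr_csH st_dual pt_le_dim wt_le_dim)

section Tensor

variable {K L A : Type*} [Field K] [Field L] [Algebra K L] [Ring A] [Algebra K A]
  [FiniteDimensional K A]

/-- **Galois descent** for subspaces. -/
lemma descent_tensor
    (hfix : ∀ x : L, (∀ g : L ≃ₐ[K] L, g x = x) → x ∈ Set.range (algebraMap K L))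
    (V : Submodule L (L ⊗[K] A))
    (hV : ∀ g : L ≃ₐ[K] L, ∀ x ∈ V, cs A (g : L →ₐ[K] L) x ∈ V) {x : L ⊗[K] A} (hx : x ∈ V) :
    x ∈ Submodule.span L ((fun a : A => ((1 : L) ⊗ₜ[K] a : L ⊗[K] A)) ''
      {a | ((1 : L) ⊗ₜ[K] a : L ⊗[K] A) ∈ V}) := by
  classical
  let e := Module.finBasis K A
  let bL := Algebra.TensorProduct.basis L e
  have hcs : ∀ (g : L →ₐ[K] L) (y : L ⊗[K] A) (i : Fin (Module.finrank K A)),
      bL.repr (cs A g y) i = g (bL.repr y i) := by
    intro g y i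
    refine cs_ind (P := fun y => bL.repr (cs A g y) i = g (bL.repr y i)) ?_ ?_ ?_ y
    · rw [map_zero, map_zero, Finsupp.zero_apply, map_zero]
    · intro x y hx hy
      rw [map_add, map_add, Finsupp.add_apply, hx, hy, map_add, Finsupp.add_apply, map_add]
    · intro l a
      rw [cs_tmul, Algebra.TensorProduct.basis_repr_tmul, Algebra.TensorProduct.basis_repr_tmul,
        Finsupp.smul_apply, Finsupp.smul_apply, Finsupp.mapRange_apply, smul_eq_mul, smul_eq_mul,
        map_mul, AlgHom.commutes]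
  let φ := bL.equivFun
  have h1 := descent (κ := Fin (Module.finrank K A)) hfix (V.map φ.toLinearMap)
    (fun g v hv => by
      obtain ⟨y, hy, rfl⟩ := hv
      refine ⟨cs A (g : L →ₐ[K] L) y, hV g y hy, ?_⟩
      funext i
      exact hcs (g : L →ₐ[K] L) y i) (Submodule.mem_map_of_mem hx)
  have h2 := Submodule.mem_map_of_mem (f := φ.symm.toLinearMap) h1
  rw [Submodule.map_span] at h2
  have h3 : φ.symm.toLinearMap (φ.toLinearMap x) = x := φ.symm_apply_apply x
  rw [h3] at h2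
  refine (Submodule.span_mono ?_) h2
  rintro _ ⟨v, ⟨⟨y, hy, rfl⟩, hv⟩, rfl⟩
  choose r hr using hv
  have h4 : φ.symm.toLinearMap (φ.toLinearMap y) = y := φ.symm_apply_apply y
  have h5 : ((1 : L) ⊗ₜ[K] (∑ i, r i • e i) : L ⊗[K] A) = y := by
    conv_rhs => rw [← bL.sum_repr y]
    rw [TensorProduct.tmul_sum]
    refine Finset.sum_congr rfl fun i _ => ?_
    have h6 : bL.repr y i = algebraMap K L (r i) := (hr i).symm
    rw [h6, Algebra.TensorProduct.basis_apply, TensorProduct.smul_tmul', smul_eq_mul, mul_one,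
      TensorProduct.tmul_smul, TensorProduct.smul_tmul', Algebra.smul_def, mul_one]
  refine ⟨∑ i, r i • e i, ?_, ?_⟩
  · show ((1 : L) ⊗ₜ[K] (∑ i, r i • e i) : L ⊗[K] A) ∈ V
    rw [h5]
    exact hy
  · show ((1 : L) ⊗ₜ[K] (∑ i, r i • e i) : L ⊗[K] A) = _
    rw [h5, h4]

end Tensor

variable {k : Type u} [Field k] {𝒱 : VarClass k} {ops : CycleOps 𝒱}
  {T : AH.HodgeTheory ops} {Y Z : 𝒱.Obj} {L : Type} [Field L] [Algebra T.W.K L]

/-- The field of coefficients is a Galois extension, in a weak sense. -/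
def Fix (T : AH.HodgeTheory ops) (L : Type) [Field L] [Algebra T.W.K L] : Prop :=
  ∀ x : L, (∀ g : L ≃ₐ[T.W.K] L, g x = x) → x ∈ Set.range (algebraMap T.W.K L)

/-- Descent for the Hodge classes. -/
lemma hodge_desc (hfix : Fix T L) (σ₀ : L →ₐ[T.W.K] ℂ) {J : ℕ} {x : (baseW T.W L).H Y}
    (hx : x ∈ HSub L T Y J) :
    x ∈ Submodule.span (baseW T.W L).K (AH.em T.W L '' {c | AH.IsHodge T Y J c}) := by
  have h1 := descent_tensor (K := T.W.K) (L := L) (A := T.W.H Y) hfix (HSub L T Y J)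
    (fun g y hy σ => by
      have h2 : csH σ Y (show (baseW T.W L).H Y from cs (T.W.H Y) (g : L →ₐ[T.W.K] L) y) =
          csH (σ.comp (g : L →ₐ[T.W.K] L)) Y y := cs_comp σ (g : L →ₐ[T.W.K] L) y
      have h3 := hy (σ.comp (g : L →ₐ[T.W.K] L))
      exact (congrArg (· ∈ T.pq Y J J) h2).mpr h3) hx
  refine (Submodule.span_mono ?_) h1
  rintro _ ⟨c, hc, rfl⟩
  refine ⟨c, ?_, rfl⟩
  have h2 : csH σ₀ Y (AH.em T.W L c) ∈ T.pq Y J J := hc σ₀
  rw [csH_em] at h2
  refine ⟨?_, h2⟩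
  have h3 : AH.em T.W ℂ c ∈ (baseW T.W ℂ).gr Y (2 * J) :=
    T.dec.le Y (by push_cast; ring) h2
  exact mem_of_baseChange (K := T.W.K) (L := ℂ) (G := T.W.gr Y (2 * J)) h3

variable {F : Subfield ℂ} {c0 : (baseW T.W ℂ).K} {S : ∀ Y : 𝒱.Obj, Set (HC T Y)}

/-- The rational class is a de Rham-Betti class. -/
def DRB (T : AH.HodgeTheory ops) (c0 : (baseW T.W ℂ).K) (S : ∀ Y : 𝒱.Obj, Set (HC T Y))
    (Y : 𝒱.Obj) (K : ℕ) (c : T.W.H Y) : Prop :=
  c ∈ T.W.gr Y (2 * K) ∧ c0 ^ K • AH.em T.W ℂ c ∈ S Y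

lemma IsDR.zero (hS : IsDR T F c0 S) (Y : 𝒱.Obj) : (0 : HC T Y) ∈ S Y := by
  have h1 := hS.smul Y 0 (FC T F).zero_mem _ (hS.one Y)
  rwa [zero_smul] at h1

/-- The classes whose conjugates are de Rham-Betti classes. -/
noncomputable def PSub (hS : IsDR T F c0 S)
    (hLF : ∀ (σ : L →ₐ[T.W.K] ℂ) (x : L), sc T (σ x) ∈ FC T F) (Y : 𝒱.Obj) (K : ℕ) :
    Submodule (baseW T.W L).K ((baseW T.W L).H Y) where
  carrier := {x | x ∈ (baseW T.W L).gr Y (2 * K) ∧ ∀ σ : L →ₐ[T.W.K] ℂ,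
    c0 ^ K • csH σ Y x ∈ S Y}
  zero_mem' := ⟨Submodule.zero_mem _, fun σ => by
    rw [map_zero, smul_zero]; exact hS.zero Y⟩
  add_mem' := fun {x y} hx hy => ⟨Submodule.add_mem _ hx.1 hy.1, fun σ => by
    rw [map_add, smul_add]; exact hS.add Y _ (hx.2 σ) _ (hy.2 σ)⟩
  smul_mem' := fun c x hx => ⟨Submodule.smul_mem _ _ hx.1, fun σ => by
    rw [csH_smul, smul_comm]
    exact hS.smul Y _ (hLF σ c) _ (hx.2 σ)⟩

lemma per_desc (hS : IsDR T F c0 S)
    (hLF : ∀ (σ : L →ₐ[T.W.K] ℂ) (x : L), sc T (σ x) ∈ FC T F)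
    (hfix : Fix T L) (σ₀ : L →ₐ[T.W.K] ℂ) {K : ℕ} {x : (baseW T.W L).H Y}
    (hx : x ∈ PSub hS hLF Y K) :
    x ∈ Submodule.span (baseW T.W L).K (AH.em T.W L '' {c | DRB T c0 S Y K c}) := by
  have h1 := descent_tensor (K := T.W.K) (L := L) (A := T.W.H Y) hfix (PSub hS hLF Y K)
    (fun g y hy => ⟨cs_mem (σ := (g : L →ₐ[T.W.K] L)) (p := T.W.gr Y (2 * K)) hy.1, fun σ => by
      have h2 : csH σ Y (show (baseW T.W L).H Y from cs (T.W.H Y) (g : L →ₐ[T.W.K] L) y) =
          csH (σ.comp (g : L →ₐ[T.W.K] L)) Y y := cs_comp σ (g : L →ₐ[T.W.K] L) y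
      have h3 := hy.2 (σ.comp (g : L →ₐ[T.W.K] L))
      exact (congrArg (fun z => c0 ^ K • z ∈ S Y) h2).mpr h3⟩) hx
  refine (Submodule.span_mono ?_) h1
  rintro _ ⟨c, hc, rfl⟩
  refine ⟨c, ⟨?_, ?_⟩, rfl⟩
  · exact mem_of_baseChange (K := T.W.K) (L := L) (G := T.W.gr Y (2 * K)) hc.1
  · have h2 := hc.2 σ₀
    have h3 : csH σ₀ Y (AH.em T.W L c) = AH.em T.W ℂ c := csH_em σ₀ c
    exact (congrArg (fun z => c0 ^ K • z ∈ S Y) h3).mp h2

lemma em_PSub (hS : IsDR T F c0 S)
    (hLF : ∀ (σ : L →ₐ[T.W.K] ℂ) (x : L), sc T (σ x) ∈ FC T F) {K : ℕ} {c : T.W.H Y}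
    (hc : DRB T c0 S Y K c) : AH.em T.W L c ∈ PSub hS hLF Y K := by
  refine ⟨Submodule.tmul_mem_baseChange_of_mem (p := T.W.gr Y (2 * K)) (1 : L) hc.1, fun σ => ?_⟩
  rw [csH_em]
  exact hc.2

variable {I : Type w} {X : I → 𝒱.Obj} {ι : I → Type} {M : ∀ i, CMB T (X i) L (ι i)}
  {ω : (L →ₐ[T.W.K] ℂ) → (Σ i, ι i) → (baseW T.W ℂ).K}

section

variable (hpos : ∀ (Y : 𝒱.Obj) (p q : ℤ), p < 0 ∨ q < 0 → T.pq Y p q = ⊥)

/-- The degree of a multiset of letters. -/
def dgS (M : ∀ i, CMB T (X i) L (ι i)) (P : Multiset (Σ i, ι i)) : ℕ :=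
  (P.map fun l => (M l.1).B.deg l.2).sum

lemma dgS_add (P Q : Multiset (Σ i, ι i)) : dgS M (P + Q) = dgS M P + dgS M Q := by
  rw [dgS, Multiset.map_add, Multiset.sum_add]
  rfl

lemma dgS_nsmul (n : ℕ) (P : Multiset (Σ i, ι i)) : dgS M (n • P) = n * dgS M P := by
  rw [dgS, Multiset.map_nsmul, Multiset.sum_nsmul, smul_eq_mul]
  rfl

include hpos in
lemma dgS_eq [∀ i, Finite (ι i)] (σ : L →ₐ[T.W.K] ℂ) (P : Multiset (Σ i, ι i)) :
    (P.map (pt M σ true)).sum + (P.map (pt M σ false)).sum = dgS M P := by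
  classical
  induction P using Multiset.induction_on with
  | empty => rfl
  | cons l P ih =>
    have := Fintype.ofFinite (ι l.1)
    have h1 : dgS M (l ::ₘ P) = (M l.1).B.deg l.2 + dgS M P := by
      rw [dgS, Multiset.map_cons, Multiset.sum_cons]
      rfl
    rw [Multiset.map_cons, Multiset.sum_cons, Multiset.map_cons, Multiset.sum_cons, h1,
      Nat.cast_add, ← ih, ← (deg_eq (M l.1) hpos σ l.2).1]
    have h2 : pt M σ true l = (M l.1).p σ l.2 := rfl
    have h3 : pt M σ false l = (M l.1).q σ l.2 := rfl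
    rw [h2, h3]
    ring

/-- All letters are letters of members in the set. -/
def InS (S0 : Set I) (P : Multiset (Σ i, ι i)) : Prop := ∀ l ∈ P, l.1 ∈ S0

include hpos in
/-- The periods of balanced words. -/
lemma per_of_hodge [∀ i, Finite (ι i)] (hS : IsDR T F c0 S) (hω : IsPer S M ω)
    (hLF : ∀ (σ : L →ₐ[T.W.K] ℂ) (x : L), sc T (σ x) ∈ FC T F)
    (hfix : Fix T L) (σ₀ : L →ₐ[T.W.K] ℂ)
    (hdRB : ∀ (i : I) (Lst : List I) (j : ℕ) (c : T.W.H (Hel.prodOf X i Lst)),
      AH.IsHodge T (Hel.prodOf X i Lst) j c → DRB T c0 S (Hel.prodOf X i Lst) j c)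
    {P : Multiset (Σ i, ι i)} {J : ℕ} (hP : ∀ σ b, (P.map (pt M σ b)).sum = J)
    (σ : L →ₐ[T.W.K] ℂ) : Per ω σ P / c0 ^ J ∈ FC T F := by
  induction P using Quotient.inductionOn with
  | h P =>
    match P, hP with
    | [], hP =>
      have h1 : J = 0 := by
        have := hP σ true
        have h2 : ((0 : ℤ)) = J := this
        exact_mod_cast h2.symm
      have h2 : Per ω σ (⟦[]⟧ : Multiset (Σ i, ι i)) = 1 := rfl
      rw [h1, h2, pow_zero, div_one]
      exact (FC T F).one_mem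
    | l :: Lst, hP =>
      obtain ⟨C, h1, h2, _⟩ := isCan_prod' (BB M) Lst l
      have hx : lwf (BB M) C ∈ HSub L T _ J := by
        intro σ
        rw [csH_lwf]
        have h3 := lwf_type M σ C
        have h4 : ∀ b, st M σ b C = J := by
          intro b
          rw [← st_eq, h1]
          exact hP σ b
        rwa [h4, h4] at h3
      have h5 := hodge_desc hfix σ₀ hx
      have h6 : lwf (BB M) C ∈ PSub hS hLF _ J := by
        refine (Submodule.span_le (p := PSub hS hLF _ J)).2 ?_ h5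
        rintro _ ⟨c, hc, rfl⟩
        exact em_PSub hS hLF (hdRB _ _ _ _ hc)
      have h7 := h6.2 σ
      rw [csH_lwf] at h7
      have h8 := per_lwf hS hω σ C
      rw [h1] at h8
      refine hS.ratio ?_ (pow_ne_zero _ hS.ne) h8 h7
      rw [← csH_lwf]
      intro h9
      exact h2 (csH_inj σ (h9.trans (map_zero _).symm))

include hpos in
/-- The types of words of the periods of de Rham-Betti classes. -/
lemma types_of_per [∀ i, Finite (ι i)] (hS : IsDR T F c0 S) (hω : IsPer S M ω)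
    (hLF : ∀ (σ : L →ₐ[T.W.K] ℂ) (x : L), sc T (σ x) ∈ FC T F)
    (hfix : Fix T L) (σ₀ : L →ₐ[T.W.K] ℂ) {S0 : Set I}
    (h : ∀ (i : I) (Lst : List I), (∀ j ∈ i :: Lst, j ∈ S0) → ∀ (j : ℕ)
      (c : T.W.H (Hel.prodOf X i Lst)), DRB T c0 S (Hel.prodOf X i Lst) j c →
      AH.IsHodge T (Hel.prodOf X i Lst) j c)
    {P : Multiset (Σ i, ι i)} (hP0 : InS S0 P) {K : ℕ} (hdeg : dgS M P = 2 * K)
    (hP : ∀ σ, Per ω σ P / c0 ^ K ∈ FC T F) (σ : L →ₐ[T.W.K] ℂ) (b : Bool) :
    (P.map (pt M σ b)).sum = K := by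
  induction P using Quotient.inductionOn with
  | h P =>
    match P, hP0, hdeg, hP with
    | [], hP0, hdeg, hP =>
      have h1 : K = 0 := by
        have h2 : (0 : ℕ) = 2 * K := hdeg
        omega
      rw [h1]
      rfl
    | l :: Lst, hP0, hdeg, hP =>
      obtain ⟨C, h1, h2, _⟩ := isCan_prod' (BB M) Lst l
      have h8 : ∀ σ, Per ω σ (↑(l :: Lst) : Multiset (Σ i, ι i)) • lwf (CC M σ) C ∈ S _ := by
        intro σ
        have h8 := per_lwf hS hω σ C
        rwa [h1] at h8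
      have h6 : lwf (BB M) C ∈ PSub hS hLF _ K := by
        refine ⟨?_, fun σ => ?_⟩
        · have h3 := lwf_gr (B := BB M) C
          have h4 : (C.map fun y => dg (BB M) y.1).sum = 2 * K := by
            have h5 : (C.map fun y => dg (BB M) y.1).sum =
                ((C.map Sigma.fst).map fun l => (M l.1).B.deg l.2).sum := by
              rw [List.map_map]
              rfl
            rw [h5, h1]
            exact hdeg
          rwa [h4] at h3
        · rw [csH_lwf]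
          have h3 := hS.smul _ _ ((FC T F).inv_mem (hP σ)) _ (h8 σ)
          rw [smul_smul] at h3
          have h4 := Per_ne hω σ (↑(l :: Lst) : Multiset (Σ i, ι i))
          have h5 : (Per ω σ (↑(l :: Lst) : Multiset (Σ i, ι i)) / c0 ^ K)⁻¹ *
              Per ω σ (↑(l :: Lst) : Multiset (Σ i, ι i)) = c0 ^ K := by
            rw [inv_div, div_mul_cancel₀ _ h4]
          exact (congrArg (fun z => z • lwf (CC M σ) C ∈ S _) h5).mp h3
      have h7 := per_desc hS hLF hfix σ₀ h6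
      have h9 : lwf (BB M) C ∈ HSub L T _ K := by
        refine (Submodule.span_le (p := HSub L T _ K)).2 ?_ h7
        rintro _ ⟨c, hc, rfl⟩
        refine em_HSub (h _ _ (fun j hj => ?_) _ _ hc)
        rcases List.mem_cons.1 hj with rfl | hj
        · exact hP0 l (Multiset.mem_coe.2 List.mem_cons_self)
        · obtain ⟨x, hx, rfl⟩ := List.mem_map.1 hj
          exact hP0 x (Multiset.mem_coe.2 (List.mem_cons_of_mem _ hx))
      have h10 := h9 σ
      rw [csH_lwf] at h10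
      have h11 := lwf_type M σ C
      have h12 : lwf (CC M σ) C ≠ 0 := by
        rw [← csH_lwf]
        intro h9
        exact h2 (csH_inj σ (h9.trans (map_zero _).symm))
      have h13 : ((st M σ true C, st M σ false C) : ℤ × ℤ) = ((K : ℤ), (K : ℤ)) := by
        by_contra hne
        have h14 := (T.dec.indep (Hel.prodOf X l.1 (Lst.map Sigma.fst))).pairwiseDisjoint hne
        exact h12 ((Submodule.disjoint_def.1 h14) _ h11 h10)
      have h15 : st M σ b C = K := by
        rcases b with _ | _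
        · exact congrArg Prod.snd h13
        · exact congrArg Prod.fst h13
      rw [← st_eq, h1] at h15
      exact h15

end

end Pool.Agent.R936.Per
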