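import Pool.Agent.R936.Per.Desc

/-!
# De Rham-Betti classes on products of varieties of CM type are Hodge classes if this holds for the
# products of few members
-/

set_option linter.unusedVariables false
set_option linter.unusedSectionVars false

open CategoryTheory AlgebraicGeometry TensorProduct

universe u w

namespace Pool.Agent.R936.Per

open Pool.Agent.H914 Pool.Agent.W534 VarClass Obj WeilCohomology
open Pool.Agent.Y121
open Pool.Agent.Y163 (HBasis)
open Pool.Agent.R940 (CMB csH csH_smul csH_map csH_em csH_gr csH_inj cs cs_ind cs_tmul cs_comp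
  cs_smul cs_mem HSub em_HSub type_bound deg_eq repr_zero mem_of_baseChange)
open Pool.Agent.R936.Hel
open Pool.Agent.R936.Hel2 (BB CC pt wt st st_cons csH_lwf lwf_type st_eq pt_nonneg st_nonneg st_add
  WB exists_WB repr_csH st_dual pt_le_dim wt_le_dim coeff_eq repr_csH1 opL opL_csH exists_int_rel)

variable {k : Type u} [Field k] {𝒱 : VarClass k} {ops : CycleOps 𝒱}
  {T : AH.HodgeTheory ops} {Y Z : 𝒱.Obj} {L : Type} [Field L] [Algebra T.W.K L]
  {F : Subfield ℂ} {c0 : (baseW T.W ℂ).K} {S : ∀ Y : 𝒱.Obj, Set (HC T Y)}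
  {I : Type w} {X : I → 𝒱.Obj} {ι : I → Type} {M : ∀ i, CMB T (X i) L (ι i)}
  {ω : (L →ₐ[T.W.K] ℂ) → (Σ i, ι i) → (baseW T.W ℂ).K}

section

variable (hpos : ∀ (Y : 𝒱.Obj) (p q : ℤ), p < 0 ∨ q < 0 → T.pq Y p q = ⊥)

include hpos in
lemma dual_letter' [∀ i, Finite (ι i)] (l : Σ i, ι i) : ∃ l' : Σ i, ι i, l'.1 = l.1 ∧
    ∀ σ b, pt M σ b l' + pt M σ b l = (X l.1).dim := by
  obtain ⟨m, hm⟩ := exists_duall (BB M) l
  refine ⟨⟨l.1, m⟩, rfl, fun σ b => ?_⟩
  have h1 := st_dual M hpos (N := [⟨⟨l.1, m⟩, 𝟙 _⟩]) (C := [⟨l, 𝟙 _⟩]) (by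
    rw [lwf_cons, lwf_nil, mul_one, lwf_cons, lwf_nil, mul_one]
    have h2 := (baseW T.W L).map_id (X l.1) (((M l.1).B).b m)
    have h3 := (baseW T.W L).map_id (X l.1) (((M l.1).B).b l.2)
    rw [h2, h3]
    exact hm) σ b
  rw [st_cons, st_cons] at h1
  have h4 : st M σ b ([] : List (Lt X ι (X l.1))) = 0 := rfl
  rw [h4, add_zero, add_zero] at h1
  exact h1

include hpos in
/-- The rank of the types. -/
lemma rank_le2 [∀ i, Finite (ι i)] [CharZero L] {R : ℕ}
    {D : Fin R → ∀ i, (T.W.H (X i) →ₗ[T.W.K] T.W.H (X i))} {z : Fin R → ℂ}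
    (hD : ∀ (i : I) (p q : ℤ) (x : (baseW T.W ℂ).H (X i)), x ∈ T.pq (X i) p q →
      ∑ j, (show (baseW T.W ℂ).K from z j) • opL ℂ (D j i) x =
        (show (baseW T.W ℂ).K from ((p - q : ℤ) : ℂ)) • x)
    (s : Fin (R + 1 + 1) → (Σ i, ι i)) : ∃ a : Fin (R + 1 + 1) → ℤ, a ≠ 0 ∧
      ∑ i, a i • (fun x : (L →ₐ[T.W.K] ℂ) × Bool => pt M x.1 x.2 (s i)) = 0 := by
  -- the diagonal coefficients
  let δ : Fin R → (Σ i, ι i) → L := fun j l =>
    (M l.1).B.b.repr (opL L (D j l.1) ((M l.1).B.b l.2)) l.2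
  have h1 : ∀ (σ : L →ₐ[T.W.K] ℂ) (l : Σ i, ι i), ∑ j, z j * σ (δ j l) = ((wt M l σ : ℤ) : ℂ) := by
    intro σ l
    have h2 := coeff_eq ((M l.1).C σ).b (hD l.1 _ _ _ ((M l.1).type σ l.2))
    refine Eq.trans (Finset.sum_congr rfl fun j _ => ?_) h2
    have h3 : ((M l.1).C σ).b.repr (opL ℂ (D j l.1) (((M l.1).C σ).b l.2)) l.2 =
        (show (baseW T.W ℂ).K from σ (δ j l)) := by
      rw [(M l.1).C_b, opL_csH, repr_csH1]
    exact congrArg (z j * ·) h3.symm
  let dgl : (Σ i, ι i) → L := fun l => ((M l.1).B.deg l.2 : L)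
  obtain ⟨lam, hlam, hker, hker'⟩ : ∃ lam : Fin (R + 1 + 1) → L, lam ≠ 0 ∧
      (∀ j, ∑ i, lam i * δ j (s i) = 0) ∧ ∑ i, lam i * dgl (s i) = 0 := by
    let g : Fin R ⊕ Unit → (Σ i, ι i) → L := fun x l => Sum.elim (fun j => δ j l) (fun _ => dgl l) x
    let f : (Fin (R + 1 + 1) → L) →ₗ[L] (Fin R ⊕ Unit → L) :=
      LinearMap.pi fun x => ∑ i, (g x (s i)) • LinearMap.proj i
    have h2 : LinearMap.ker f ≠ ⊥ := LinearMap.ker_ne_bot_of_finrank_lt (by
      rw [Module.finrank_fin_fun, Module.finrank_fintype_fun_eq_card, Fintype.card_sum,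
        Fintype.card_fin, Fintype.card_unit]
      exact Nat.lt_succ_self _)
    obtain ⟨lam, h3, h4⟩ := (Submodule.ne_bot_iff _).1 h2
    have h6 : ∀ x, ∑ i, lam i * g x (s i) = 0 := by
      intro x
      have h5 := congrFun (LinearMap.mem_ker.1 h3) x
      have h6 : f lam x = ∑ i, lam i * g x (s i) := by
        simp only [f, LinearMap.pi_apply, LinearMap.sum_apply, LinearMap.smul_apply,
          LinearMap.proj_apply, smul_eq_mul]
        exact Finset.sum_congr rfl fun i _ => mul_comm _ _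
      rw [← h6, h5]
      rfl
    exact ⟨lam, h4, fun j => h6 (Sum.inl j), h6 (Sum.inr ())⟩
  -- the differences
  have hdiff : ∀ σ : L →ₐ[T.W.K] ℂ, ∑ i, lam i * ((wt M (s i) σ : ℤ) : L) = 0 := by
    intro σ
    apply σ.injective
    have h2 : ∑ i, σ (lam i) * ((wt M (s i) σ : ℤ) : ℂ) = 0 := by
      calc ∑ i, σ (lam i) * ((wt M (s i) σ : ℤ) : ℂ)
          = ∑ i, ∑ j, z j * σ (lam i * δ j (s i)) := by
            refine Finset.sum_congr rfl fun i _ => ?_
            rw [← h1 σ (s i), Finset.mul_sum]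
            refine Finset.sum_congr rfl fun j _ => ?_
            rw [map_mul]
            ring
        _ = ∑ j, z j * σ (∑ i, lam i * δ j (s i)) := by
            rw [Finset.sum_comm]
            refine Finset.sum_congr rfl fun j _ => ?_
            rw [map_sum, Finset.mul_sum]
        _ = 0 := by
            refine Finset.sum_eq_zero fun j _ => ?_
            rw [hker, map_zero, mul_zero]
    rw [map_zero, ← h2, map_sum]
    refine Finset.sum_congr rfl fun i _ => ?_
    exact (map_mul σ _ _).trans (congrArg (σ (lam i) * ·) (map_intCast σ _))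
  have hsum : ∀ σ : L →ₐ[T.W.K] ℂ,
      ∑ i, lam i * ((pt M σ true (s i) + pt M σ false (s i) : ℤ) : L) = 0 := by
    intro σ
    rw [← hker']
    refine Finset.sum_congr rfl fun i _ => ?_
    have h2 : pt M σ true (s i) + pt M σ false (s i) = ((M (s i).1).B.deg (s i).2 : ℤ) := by
      classical
      have := Fintype.ofFinite (ι (s i).1)
      exact (deg_eq (M (s i).1) hpos σ (s i).2).1
    rw [h2]
    congr 1
    exact Int.cast_natCast _
  refine exists_int_rel hlam (v := fun i (x : (L →ₐ[T.W.K] ℂ) × Bool) => pt M x.1 x.2 (s i))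
    fun x => ?_
  obtain ⟨σ, b⟩ := x
  have h3 := hdiff σ
  have h4 := hsum σ
  have h5 : (2 : L) * ∑ i, lam i * ((pt M σ true (s i) : ℤ) : L) = 0 := by
    have h6 : (2 : L) * ∑ i, lam i * ((pt M σ true (s i) : ℤ) : L) =
        ∑ i, lam i * ((wt M (s i) σ : ℤ) : L) +
          ∑ i, lam i * ((pt M σ true (s i) + pt M σ false (s i) : ℤ) : L) := by
      rw [Finset.mul_sum, ← Finset.sum_add_distrib]
      refine Finset.sum_congr rfl fun i _ => ?_
      rw [Pool.Agent.R936.Hel2.wt]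
      push_cast
      ring
    rw [h6, h3, h4, add_zero]
  have h6 := (mul_eq_zero.1 h5).resolve_left two_ne_zero
  cases b
  · have h7 : ∑ i, lam i * ((pt M σ false (s i) : ℤ) : L) =
        ∑ i, lam i * ((pt M σ true (s i) + pt M σ false (s i) : ℤ) : L) -
          ∑ i, lam i * ((pt M σ true (s i) : ℤ) : L) := by
      rw [← Finset.sum_sub_distrib]
      refine Finset.sum_congr rfl fun i _ => ?_
      push_cast
      ring
    show ∑ i, lam i * ((pt M σ false (s i) : ℤ) : L) = 0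
    rw [h7, h4, h6, sub_zero]
  · exact h6

/-- A word which occurs in a homogeneous class has the degree of the class. -/
lemma dg_of_repr {κ : Type} [Finite κ] {N : κ → List (Lt X ι Z)}
    {b : Module.Basis κ (baseW T.W L).K ((baseW T.W L).H Z)} (hb : ∀ a, b a = lwf (BB M) (N a))
    {d : ℕ} {x : (baseW T.W L).H Z} (hx : x ∈ (baseW T.W L).gr Z d) {a : κ}
    (ha : b.repr x a ≠ 0) : dgS M (↑((N a).map Sigma.fst) : Multiset (Σ i, ι i)) = d := by
  have h5 : ∀ a, (((N a).map fun y => dg (BB M) y.1).sum) =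
      dgS M (↑((N a).map Sigma.fst) : Multiset (Σ i, ι i)) := by
    intro a
    rw [dgS, Multiset.map_coe, List.map_map, Multiset.sum_coe]
    rfl
  by_contra hne
  refine ha (repr_zero ((baseW T.W L).isInternal Z).submodule_iSupIndep b
    (fun a => dgS M (↑((N a).map Sigma.fst) : Multiset (Σ i, ι i))) (fun a => ?_) hx hne)
  rw [hb]
  have h6 := lwf_gr (B := BB M) (N a)
  rwa [h5] at h6

lemma sum_fun_apply {A : Type*} (P : Multiset (Σ i, ι i)) (g : (Σ i, ι i) → A → ℤ) (x : A) :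
    (P.map g).sum x = (P.map fun l => g l x).sum := by
  induction P using Multiset.induction_on with
  | empty => rfl
  | cons l P ih =>
    rw [Multiset.map_cons, Multiset.sum_cons, Multiset.map_cons, Multiset.sum_cons,
      Pi.add_apply, ih]

lemma sum_mul_nsmul {κ : Type*} (J : Finset κ) (P : κ → Multiset (Σ i, ι i))
    (g : (Σ i, ι i) → ℤ) (c : κ → ℕ) :
    ((∑ j ∈ J, c j • P j).map g).sum = ∑ j ∈ J, (c j : ℤ) * ((P j).map g).sum := by
  classical
  induction J using Finset.induction_on with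
  | empty => rw [Finset.sum_empty, Finset.sum_empty, Multiset.map_zero, Multiset.sum_zero]
  | insert a J ha ih =>
    rw [Finset.sum_insert ha, Finset.sum_insert ha, Multiset.map_add, Multiset.sum_add, ih,
      Multiset.map_nsmul, Multiset.sum_nsmul, nsmul_eq_mul]

include hpos in
/-- **The transcendence part of the period conjecture for products.** -/
theorem drb_hodge [∀ i, Finite (ι i)] [CharZero L] (hS : IsDR T F c0 S) (hω : IsPer S M ω)
    (hLF : ∀ (σ : L →ₐ[T.W.K] ℂ) (x : L), sc T (σ x) ∈ FC T F)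
    (hfix : Fix T L) (σ₀ : L →ₐ[T.W.K] ℂ) {R : ℕ}
    {D : Fin R → ∀ i, (T.W.H (X i) →ₗ[T.W.K] T.W.H (X i))} {z : Fin R → ℂ}
    (hD : ∀ (i : I) (p q : ℤ) (x : (baseW T.W ℂ).H (X i)), x ∈ T.pq (X i) p q →
      ∑ j, (show (baseW T.W ℂ).K from z j) • opL ℂ (D j i) x =
        (show (baseW T.W ℂ).K from ((p - q : ℤ) : ℂ)) • x)
    (hdRB : ∀ (i : I) (Lst : List I) (j : ℕ) (c : T.W.H (Hel.prodOf X i Lst)),
      AH.IsHodge T (Hel.prodOf X i Lst) j c → DRB T c0 S (Hel.prodOf X i Lst) j c) :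
    ∃ S0 : Finset I, S0.card ≤ R + 1 ∧
      ((∀ (i : I) (Lst : List I), (∀ j ∈ i :: Lst, j ∈ S0) → ∀ (j : ℕ)
          (c : T.W.H (Hel.prodOf X i Lst)), DRB T c0 S (Hel.prodOf X i Lst) j c →
          AH.IsHodge T (Hel.prodOf X i Lst) j c) →
        ∀ (i : I) (Lst : List I) (j : ℕ) (c : T.W.H (Hel.prodOf X i Lst)),
          DRB T c0 S (Hel.prodOf X i Lst) j c → AH.IsHodge T (Hel.prodOf X i Lst) j c) := by
  classical
  obtain ⟨J, hJ, hJ2⟩ := exists_letters
    (fun (l : Σ i, ι i) (x : (L →ₐ[T.W.K] ℂ) × Bool) => pt M x.1 x.2 l) (N := R + 1)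
    (rank_le2 (M := M) hpos hD)
  refine ⟨J.image Sigma.fst, Finset.card_image_le.trans hJ, fun h i Lst kk c hc => ?_⟩
  choose dl hdl1 hdl2 using dual_letter' (M := M) hpos
  obtain ⟨κ, hκ, N, hN⟩ := exists_WB (ops := ops) (X := X) (ι := ι) Lst i
  obtain ⟨b, hb⟩ := hN _ (BB M)
  -- the words in `c` are of type `(kk, kk)`
  have key : ∀ a, b.repr (AH.em T.W L c) a ≠ 0 → ∀ σ bb, st M σ bb (N a) = kk := by
    intro a ha
    set P : Multiset (Σ i, ι i) := ↑((N a).map Sigma.fst) with hP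
    have hper : ∀ σ, Per ω σ P / c0 ^ kk ∈ FC T F := by
      intro σ
      refine per_of_repr hS hω hLF hN hb σ (pow_ne_zero _ hS.ne) ?_ ha
      rw [csH_em]
      exact hc.2
    have hdeg : dgS M P = 2 * kk := dg_of_repr hb
      (Submodule.tmul_mem_baseChange_of_mem (p := T.W.gr _ (2 * kk)) (1 : L) hc.1) ha
    obtain ⟨n, cc, hn, hrel⟩ := hJ2 P
    have hrel' : ∀ σ bb, (n : ℤ) * (P.map (pt M σ bb)).sum = ∑ j ∈ J, cc j * pt M σ bb j := by
      intro σ bb
      have h1 := congrFun hrel (σ, bb)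
      rw [Pi.smul_apply, Finset.sum_apply, nsmul_eq_mul] at h1
      have h2 : (P.map fun (l : Σ i, ι i) (x : (L →ₐ[T.W.K] ℂ) × Bool) => pt M x.1 x.2 l).sum
          (σ, bb) = (P.map (pt M σ bb)).sum := by
        exact sum_fun_apply P _ _
      rw [h2] at h1
      rw [h1]
      refine Finset.sum_congr rfl fun j _ => ?_
      rw [Pi.smul_apply, smul_eq_mul]
    let P2 : Multiset (Σ i, ι i) := ∑ j ∈ J, (cc j).toNat • {dl j} + ∑ j ∈ J, (-cc j).toNat • {j}
    have hP2 : ∀ σ bb, (n : ℤ) * (P.map (pt M σ bb)).sum + (P2.map (pt M σ bb)).sum =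
        (∑ j ∈ J, (cc j).toNat * (X j.1).dim : ℕ) := by
      intro σ bb
      rw [hrel', Multiset.map_add, Multiset.sum_add, sum_mul_nsmul, sum_mul_nsmul,
        ← Finset.sum_add_distrib, ← Finset.sum_add_distrib, Nat.cast_sum]
      refine Finset.sum_congr rfl fun j _ => ?_
      rw [Multiset.map_singleton, Multiset.sum_singleton, Multiset.map_singleton,
        Multiset.sum_singleton, Nat.cast_mul]
      have h1 := hdl2 j σ bb
      have h2 : (((cc j).toNat : ℤ)) - ((-cc j).toNat : ℤ) = cc j := by omega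
      have h3 : ((X j.1).dim : ℤ) = pt M σ bb (dl j) + pt M σ bb j := h1.symm
      rw [h3]
      linear_combination (-(pt M σ bb j)) * h2
    set J0 : ℕ := ∑ j ∈ J, (cc j).toNat * (X j.1).dim with hJ0
    -- degrees
    have hdeg2 : n * (2 * kk) + dgS M P2 = 2 * J0 := by
      have h1 := hP2 σ₀ true
      have h2 := hP2 σ₀ false
      have h3 := dgS_eq hpos (M := M) σ₀ P
      have h4 := dgS_eq hpos (M := M) σ₀ P2
      rw [hdeg] at h3
      have h5 : ((n * (2 * kk) + dgS M P2 : ℕ) : ℤ) = ((2 * J0 : ℕ) : ℤ) := by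
        push_cast
        push_cast at h3
        rw [← h4]
        linear_combination h1 + h2 - (n : ℤ) * h3
      exact_mod_cast h5
    obtain ⟨K2, hK2⟩ : ∃ K2, J0 = n * kk + K2 := ⟨J0 - n * kk, by
      have : n * (2 * kk) = 2 * (n * kk) := by ring
      omega⟩
    have hdeg3 : dgS M P2 = 2 * K2 := by
      have : n * (2 * kk) = 2 * (n * kk) := by ring
      omega
    -- the periods
    have hper2 : ∀ σ, Per ω σ P2 / c0 ^ K2 ∈ FC T F := by
      intro σ
      have h1 := per_of_hodge hpos hS hω hLF hfix σ₀ hdRB (P := n • P + P2) (J := J0)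
        (fun σ bb => by
          rw [Multiset.map_add, Multiset.sum_add, Multiset.map_nsmul, Multiset.sum_nsmul,
            nsmul_eq_mul]
          exact hP2 σ bb) σ
      rw [Per_add, Per_nsmul] at h1
      have h2 := (FC T F).div_mem h1 ((FC T F).pow_mem (hper σ) n)
      have h3 := Per_ne hω σ P
      have h4 := hS.ne
      have h5 : Per ω σ P ^ n * Per ω σ P2 / c0 ^ J0 / (Per ω σ P / c0 ^ kk) ^ n =
          Per ω σ P2 / c0 ^ K2 := by
        have h6 : c0 ^ (n * kk) ≠ 0 := pow_ne_zero _ h4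
        have h7 : Per ω σ P ^ n ≠ 0 := pow_ne_zero _ h3
        have h8 : c0 ^ K2 ≠ 0 := pow_ne_zero _ h4
        rw [hK2, pow_add, div_pow, ← pow_mul, mul_comm kk n]
        generalize c0 ^ (n * kk) = u at h6 ⊢
        generalize Per ω σ P ^ n = v at h7 ⊢
        generalize c0 ^ K2 = w at h8 ⊢
        field_simp
      rwa [h5] at h2
    have hin : InS (↑(J.image Sigma.fst) : Set I) P2 := by
      intro l hl
      rcases Multiset.mem_add.1 hl with hl | hl
      · obtain ⟨j, hj, hl⟩ := Multiset.mem_sum.1 hl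
        have h1 := Multiset.mem_of_mem_nsmul hl
        rw [Multiset.mem_singleton] at h1
        rw [h1, hdl1]
        exact Finset.mem_coe.2 (Finset.mem_image_of_mem _ hj)
      · obtain ⟨j, hj, hl⟩ := Multiset.mem_sum.1 hl
        have h1 := Multiset.mem_of_mem_nsmul hl
        rw [Multiset.mem_singleton] at h1
        rw [h1]
        exact Finset.mem_coe.2 (Finset.mem_image_of_mem _ hj)
    intro σ bb
    have h1 := types_of_per hpos hS hω hLF hfix σ₀
      (S0 := (↑(J.image Sigma.fst) : Set I))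
      (fun i Lst hL => h i Lst fun j hj => Finset.mem_coe.1 (hL j hj)) hin hdeg3 hper2 σ bb
    have h2 := hP2 σ bb
    rw [h1] at h2
    have h3 : (n : ℤ) * (P.map (pt M σ bb)).sum = n * kk := by
      have h4 : ((J0 : ℕ) : ℤ) = n * kk + K2 := by rw [hK2]; push_cast; ring
      linear_combination h2 + h4
    have h5 : (n : ℤ) ≠ 0 := by exact_mod_cast hn.ne'
    have h6 := mul_left_cancel₀ h5 h3
    rw [← st_eq]
    exact h6
  refine ⟨hc.1, ?_⟩
  cases nonempty_fintype κ
  have h1 : AH.em T.W ℂ c = csH σ₀ _ (AH.em T.W L c) := (csH_em σ₀ c).symm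
  rw [h1, ← b.sum_repr (AH.em T.W L c), map_sum]
  refine Submodule.sum_mem _ fun a _ => ?_
  rw [csH_smul]
  by_cases ha : b.repr (AH.em T.W L c) a = 0
  · have h2 : (show (baseW T.W ℂ).K from σ₀ (b.repr (AH.em T.W L c) a)) = 0 := by
      rw [ha]
      exact map_zero σ₀
    rw [h2, zero_smul]
    exact Submodule.zero_mem _
  · refine Submodule.smul_mem _ _ ?_
    rw [hb, csH_lwf]
    have h2 := lwf_type M σ₀ (N a)
    rwa [key a ha σ₀ true, key a ha σ₀ false] at h2

end

end Pool.Agent.R936.Per
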